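import Pool.Agent.H53.TC.Count

/-!
# Cuts of 3-graphs without a complete 4-vertex 3-graph: from the counting argument to Turán's
number
-/

set_option autoImplicit false

open Finset

namespace Pool.Agent.H53.TC

/-- Turán's number `f(n)`. -/
def turanF (n : ℕ) : ℕ :=
  if n % 3 = 0 then (n / 3) * (n / 3 - 1) * (2 * (n / 3) - 1)
  else if n % 3 = 1 then (n / 3) ^ 2 * (2 * (n / 3) - 1)
  else (n / 3) ^ 2 * (2 * (n / 3) + 1)

theorem tangent (q s : ℕ) : q * s ≤ s.choose 2 + (q + 1).choose 2 := by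
  have h1 : (2 : ℤ) * (s.choose 2 : ℤ) = s * (s - 1) := by
    have := Nat.triangle_succ (s - 1)
    have h2 := Nat.choose_two_right s
    rcases Nat.eq_zero_or_pos s with h | h
    · subst h; simp
    · have h3 : s * (s - 1) / 2 * 2 = s * (s - 1) :=
        Nat.div_mul_cancel (Nat.even_mul_pred_self s).two_dvd
      rw [h2]
      have h4 : ((s - 1 : ℕ) : ℤ) = s - 1 := by omega
      have h5 : ((s * (s - 1) / 2 * 2 : ℕ) : ℤ) = ((s * (s - 1) : ℕ) : ℤ) := by rw [h3]
      push_cast [h4] at h5 ⊢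
      linarith
  have h2 : (2 : ℤ) * ((q + 1).choose 2 : ℤ) = (q + 1) * q := by
    have h2 := Nat.choose_two_right (q + 1)
    have h3 : (q + 1) * (q + 1 - 1) / 2 * 2 = (q + 1) * (q + 1 - 1) :=
      Nat.div_mul_cancel (Nat.even_mul_pred_self (q + 1)).two_dvd
    rw [h2]
    have h5 : (((q + 1) * (q + 1 - 1) / 2 * 2 : ℕ) : ℤ) = (((q + 1) * (q + 1 - 1) : ℕ) : ℤ) := by
      rw [h3]
    simp only [Nat.add_sub_cancel] at h5 ⊢
    push_cast at h5 ⊢
    linarith
  have h3 : (0 : ℤ) ≤ ((s : ℤ) - q) * (s - q - 1) := by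
    rcases le_or_gt (s : ℤ) q with h | h
    · nlinarith
    · have : (1 : ℤ) ≤ s - q := by omega
      nlinarith
  have h4 : (q : ℤ) * s ≤ (s.choose 2 : ℤ) + ((q + 1).choose 2 : ℤ) := by nlinarith
  exact_mod_cast h4

variable {V : Type*} [Fintype V] [DecidableEq V]

/-- The number of missing triples which meet both `A` and its complement. -/
theorem cross_le {G : Finset (Finset V)} (hG : Covers G) (hG3 : ∀ T ∈ G, T.card = 3)
    (A : Finset V) (q : ℕ) :
    q * ((two G A).card + (two G Aᶜ).card) ≤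
      A.card.choose 2 * Aᶜ.card.choose 2 +
        (A.card.choose 2 + Aᶜ.card.choose 2) * (q + 1).choose 2 := by
  have h1 := rect_ineq hG hG3 A
  have h2 : ∀ B : Finset V, q * ∑ e ∈ B.powersetCard 2, (sOut G B e).card ≤
      ∑ e ∈ B.powersetCard 2, (sOut G B e).card.choose 2 +
        B.card.choose 2 * (q + 1).choose 2 := by
    intro B
    have : B.card.choose 2 * (q + 1).choose 2 = ∑ e ∈ B.powersetCard 2, (q + 1).choose 2 := by
      simp [card_powersetCard]
    rw [this, mul_sum, ← sum_add_distrib]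
    exact sum_le_sum fun e _ => tangent q _
  have h3 := card_two_le G A
  have h4 := card_two_le G Aᶜ
  have h5 := h2 A
  have h6 := h2 Aᶜ
  have h7 : q * (two G A).card ≤ q * ∑ e ∈ A.powersetCard 2, (sOut G A e).card :=
    Nat.mul_le_mul_left q h3
  have h8 : q * (two G Aᶜ).card ≤ q * ∑ e ∈ Aᶜ.powersetCard 2, (sOut G Aᶜ e).card :=
    Nat.mul_le_mul_left q h4
  rw [Nat.mul_add, Nat.add_mul]
  omega

/-- Trivial bound. -/
theorem cross_triv (G : Finset (Finset V)) (A : Finset V) :
    (two G A).card + (two G Aᶜ).card ≤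
      A.card.choose 2 * Aᶜ.card + Aᶜ.card.choose 2 * A.card := by
  have h3 := card_two_le G A
  have h4 := card_two_le G Aᶜ
  have h5 : ∑ e ∈ A.powersetCard 2, (sOut G A e).card ≤ A.card.choose 2 * Aᶜ.card := by
    refine (sum_le_card_nsmul _ _ Aᶜ.card fun e _ => ?_).trans (le_of_eq ?_)
    · exact card_le_card (filter_subset _ _)
    · simp [card_powersetCard]
  have h6 : ∑ e ∈ Aᶜ.powersetCard 2, (sOut G Aᶜ e).card ≤ Aᶜ.card.choose 2 * A.card := by
    refine (sum_le_card_nsmul _ _ A.card fun e _ => ?_).trans (le_of_eq ?_)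
    · refine card_le_card ((filter_subset _ _).trans ?_)
      rw [compl_compl]
    · simp [card_powersetCard]
  omega

theorem two_choose_two (s : ℕ) : (2 : ℝ) * (s.choose 2 : ℝ) = s * (s - 1) := by
  rw [Nat.cast_choose_two]
  ring

theorem six_choose_three (s : ℕ) : (6 : ℝ) * (s.choose 3 : ℝ) = s * (s - 1) * (s - 2) := by
  induction s with
  | zero => simp
  | succ k ih =>
    have h := two_choose_two k
    rw [Nat.choose_succ_succ' k 2]
    push_cast
    linear_combination 3 * h + ih

/-- `2 (C(n,3) - f(n))` as a polynomial. -/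
theorem turan_real (n s : ℕ) (hn : n = 3 * s ∨ n = 3 * s + 1 ∨ n = 3 * s + 2) (hs : 1 ≤ s) :
    2 * ((n.choose 3 : ℝ) - turanF n) =
      if n = 3 * s then (s : ℝ) ^ 2 * (5 * s - 3)
      else if n = 3 * s + 1 then (s : ℝ) * (5 * s ^ 2 + 2 * s - 1)
      else (s : ℝ) * (5 * s ^ 2 + 7 * s + 2) := by
  have hc := six_choose_three n
  obtain ⟨k, rfl⟩ : ∃ k, s = k + 1 := ⟨s - 1, by omega⟩
  rcases hn with h | h | h
  · have e1 : n % 3 = 0 := by omega
    have e2 : n / 3 = k + 1 := by omega
    rw [if_pos h]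
    have e3 : turanF n = (k + 1) * k * (2 * k + 1) := by
      rw [turanF, if_pos e1, e2]
      congr 1
    rw [e3]
    subst h
    push_cast at hc ⊢
    linear_combination (1 / 3) * hc
  · have e1 : n % 3 = 1 := by omega
    have e2 : n / 3 = k + 1 := by omega
    have e0 : ¬ n = 3 * (k + 1) := by omega
    rw [if_neg e0, if_pos h]
    have e3 : turanF n = (k + 1) ^ 2 * (2 * k + 1) := by
      rw [turanF, if_neg (by omega), if_pos e1, e2]
      congr 1
    rw [e3]
    subst h
    push_cast at hc ⊢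
    linear_combination (1 / 3) * hc
  · have e1 : n % 3 = 2 := by omega
    have e2 : n / 3 = k + 1 := by omega
    have e0 : ¬ n = 3 * (k + 1) := by omega
    have e0' : ¬ n = 3 * (k + 1) + 1 := by omega
    rw [if_neg e0, if_neg e0']
    have e3 : turanF n = (k + 1) ^ 2 * (2 * (k + 1) + 1) := by
      rw [turanF, if_neg (by omega), if_neg (by omega), e2]
    rw [e3]
    subst h
    push_cast at hc ⊢
    linear_combination (1 / 3) * hc

end Pool.Agent.H53.TC
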