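import Pool.Agent.H53.TC.Three

/-!
# Three cliques without transversal edges: colour classes
-/

set_option autoImplicit false

open Finset

namespace Pool.Agent.H53.TC

variable {V : Type*} [Fintype V] [DecidableEq V]

/-- Colour class. -/
def cls (χ : V → Fin 3) (i : Fin 3) : Finset V := univ.filter fun v => χ v = i

theorem mem_cls {χ : V → Fin 3} {i : Fin 3} {v : V} : v ∈ cls χ i ↔ χ v = i := by
  simp [cls]

theorem cls_disjoint (χ : V → Fin 3) {i j : Fin 3} (h : i ≠ j) : Disjoint (cls χ i) (cls χ j) := by
  rw [disjoint_left]
  intro v h1 h2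
  rw [mem_cls] at h1 h2
  exact h (h1.symm.trans h2)

theorem cls_compl (χ : V → Fin 3) {i j k : Fin 3} (hij : i ≠ j) (hik : i ≠ k) (hjk : j ≠ k) :
    (cls χ i)ᶜ = cls χ j ∪ cls χ k := by
  ext v
  rw [mem_compl, mem_union, mem_cls, mem_cls, mem_cls]
  generalize χ v = c
  revert i j k c
  decide

/-- Missing triples with one colour. -/
def monoMissing (G : Finset (Finset V)) (χ : V → Fin 3) : Finset (Finset V) :=
  (missing G).filter fun T => (T.image χ).card = 1

/-- Members of `G` with three colours. -/
def rainbowIn (G : Finset (Finset V)) (χ : V → Fin 3) : Finset (Finset V) :=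
  G.filter fun T => (T.image χ).card = 3

/-- Missing triples with three colours. -/
def rainbowMissing (G : Finset (Finset V)) (χ : V → Fin 3) : Finset (Finset V) :=
  (missing G).filter fun T => (T.image χ).card = 3

theorem missing_le (G : Finset (Finset V)) (χ : V → Fin 3) :
    (missing G).card ≤ (monoMissing G χ).card + (rainbowMissing G χ).card +
      (two G (cls χ 0)).card + (two G (cls χ 1)).card + (two G (cls χ 2)).card := by
  have h : missing G ⊆ (((monoMissing G χ ∪ rainbowMissing G χ) ∪ two G (cls χ 0)) ∪
      two G (cls χ 1)) ∪ two G (cls χ 2) := by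
    intro T hT
    have h3 : T.card = 3 := by
      simp only [missing, mem_sdiff, mem_powersetCard] at hT
      exact hT.1.2
    simp only [mem_union, monoMissing, rainbowMissing, two, mem_filter, hT, true_and]
    have h4 : (T.image χ).card ≤ T.card := card_image_le
    have h5 : 0 < (T.image χ).card := by
      rw [card_pos]
      exact (card_pos.1 (by omega)).image χ
    by_cases h6 : (T.image χ).card = 2
    · obtain ⟨x, hx, y, hy, hxy, hc⟩ := exists_ne_map_eq_of_card_lt_of_maps_to
        (s := T) (t := T.image χ) (f := χ) (by omega) (fun a ha => mem_image_of_mem χ ha)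
      have h7 : ({x, y} : Finset V) ⊆ T ∩ cls χ (χ x) := by
        intro z hz
        rw [mem_insert, mem_singleton] at hz
        rw [mem_inter, mem_cls]
        rcases hz with rfl | rfl
        · exact ⟨hx, rfl⟩
        · exact ⟨hy, hc.symm⟩
      have h8 : 2 ≤ (T ∩ cls χ (χ x)).card := by
        rw [← card_pair hxy]
        exact card_le_card h7
      have h9 : (T ∩ cls χ (χ x)).card ≤ T.card := card_le_card inter_subset_left
      have h10 : (T ∩ cls χ (χ x)).card ≠ 3 := by
        intro h
        have h11 : T ∩ cls χ (χ x) = T := eq_of_subset_of_card_le inter_subset_left (by omega)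
        have h12 : T.image χ ⊆ {χ x} := by
          intro c hc
          obtain ⟨z, hz, rfl⟩ := mem_image.1 hc
          rw [← h11, mem_inter, mem_cls] at hz
          exact mem_singleton.2 hz.2
        have := card_le_card h12
        rw [card_singleton] at this
        omega
      have h13 : (T ∩ cls χ (χ x)).card = 2 := by omega
      have h14 : χ x = 0 ∨ χ x = 1 ∨ χ x = 2 := by
        generalize χ x = c
        revert c; decide
      rcases h14 with h | h | h
      · rw [h] at h13; exact Or.inl (Or.inl (Or.inr h13))
      · rw [h] at h13; exact Or.inl (Or.inr h13)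
      · rw [h] at h13; exact Or.inr h13
    · left; left; left
      omega
  refine (card_le_card h).trans ?_
  refine (card_union_le _ _).trans (Nat.add_le_add_right ?_ _)
  refine (card_union_le _ _).trans (Nat.add_le_add_right ?_ _)
  refine (card_union_le _ _).trans (Nat.add_le_add_right ?_ _)
  exact card_union_le _ _

theorem rainbow_total {G : Finset (Finset V)} (hG3 : ∀ T ∈ G, T.card = 3) (χ : V → Fin 3) :
    (rainbowMissing G χ).card + (rainbowIn G χ).card ≤
      (cls χ 0).card * ((cls χ 1).card * (cls χ 2).card) := by
  have hdis : Disjoint (rainbowMissing G χ) (rainbowIn G χ) := by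
    rw [disjoint_left]
    intro T h1 h2
    simp only [rainbowMissing, missing, rainbowIn, mem_filter, mem_sdiff] at h1 h2
    exact h1.1.2 h2.1
  rw [← card_union_of_disjoint hdis, ← card_product, ← card_product]
  have hsub : rainbowMissing G χ ∪ rainbowIn G χ ⊆
      (cls χ 0 ×ˢ (cls χ 1 ×ˢ cls χ 2)).image fun t => ({t.1, t.2.1, t.2.2} : Finset V) := by
    intro T hT
    have hT3 : T.card = 3 ∧ (T.image χ).card = 3 := by
      simp only [mem_union, rainbowMissing, missing, rainbowIn, mem_filter, mem_sdiff,
        mem_powersetCard] at hT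
      rcases hT with h | h
      · exact ⟨h.1.1.2, h.2⟩
      · exact ⟨hG3 T h.1, h.2⟩
    have hun : T.image χ = univ := eq_univ_of_card _ (by rw [hT3.2]; rfl)
    have hex : ∀ i : Fin 3, ∃ x ∈ T, χ x = i := by
      intro i
      have : i ∈ T.image χ := by rw [hun]; exact mem_univ i
      exact mem_image.1 this
    obtain ⟨x, hx, hx0⟩ := hex 0
    obtain ⟨y, hy, hy1⟩ := hex 1
    obtain ⟨z, hz, hz2⟩ := hex 2
    rw [mem_image]
    refine ⟨(x, y, z), ?_, ?_⟩
    · simp only [mem_product, mem_cls]
      exact ⟨hx0, hy1, hz2⟩
    · have n1 : x ≠ y := by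
        rintro rfl
        rw [hx0] at hy1
        exact absurd hy1 (by decide)
      have n2 : x ≠ z := by
        rintro rfl
        rw [hx0] at hz2
        exact absurd hz2 (by decide)
      have n3 : y ≠ z := by
        rintro rfl
        rw [hy1] at hz2
        exact absurd hz2 (by decide)
      refine eq_of_subset_of_card_le ?_ ?_
      · intro w hw
        simp only [mem_insert, mem_singleton] at hw
        rcases hw with rfl | rfl | rfl
        · exact hx
        · exact hy
        · exact hz
      · rw [hT3.1, card_insert_of_notMem, card_pair n3]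
        simp [n1, n2]
  exact (card_le_card hsub).trans card_image_le

theorem rainbow_inj (G : Finset (Finset V)) (χ : V → Fin 3) {i j k : Fin 3} (hij : i ≠ j)
    (hik : i ≠ k) (hjk : j ≠ k) :
    ∑ x ∈ cls χ i,
      ((cls χ j ×ˢ cls χ k).filter fun p => ({x, p.1, p.2} : Finset V) ∈ G).card ≤
      (rainbowIn G χ).card := by
  rw [← card_sigma]
  refine card_le_card_of_injOn (fun t => ({t.1, t.2.1, t.2.2} : Finset V)) ?_ ?_
  · rintro ⟨x, y, z⟩ ht
    rw [mem_coe] at ht
    simp only [mem_sigma, mem_filter, mem_product, mem_cls] at ht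
    obtain ⟨hx, ⟨hy, hz⟩, hT⟩ := ht
    rw [mem_coe]
    simp only [rainbowIn, mem_filter]
    refine ⟨hT, ?_⟩
    rw [image_insert, image_insert, image_singleton, hx, hy, hz, card_insert_of_notMem,
      card_pair hjk]
    simp [hij, hik]
  · rintro ⟨x, y, z⟩ ht ⟨x', y', z'⟩ ht' h
    rw [mem_coe] at ht ht'
    simp only [mem_sigma, mem_filter, mem_product, mem_cls] at ht ht'
    obtain ⟨hx, ⟨hy, hz⟩, -⟩ := ht
    obtain ⟨hx', ⟨hy', hz'⟩, -⟩ := ht'
    simp only at h
    have e1 : x = x' := by
      have : x ∈ ({x', y', z'} : Finset V) := by rw [← h]; simp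
      simp only [mem_insert, mem_singleton] at this
      rcases this with e | e | e
      · exact e
      · rw [e, hy'] at hx; exact absurd hx.symm hij
      · rw [e, hz'] at hx; exact absurd hx.symm hik
    have e2 : y = y' := by
      have : y ∈ ({x', y', z'} : Finset V) := by rw [← h]; simp
      simp only [mem_insert, mem_singleton] at this
      rcases this with e | e | e
      · rw [e, hx'] at hy; exact absurd hy hij
      · exact e
      · rw [e, hz'] at hy; exact absurd hy.symm hjk
    have e3 : z = z' := by
      have : z ∈ ({x', y', z'} : Finset V) := by rw [← h]; simp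
      simp only [mem_insert, mem_singleton] at this
      rcases this with e | e | e
      · rw [e, hx'] at hz; exact absurd hz hik
      · rw [e, hy'] at hz; exact absurd hz hjk
      · exact e
    rw [e1, e2, e3]

/-- The main counting inequality. -/
theorem count_main {G : Finset (Finset V)} (hG : Covers G) (hG3 : ∀ T ∈ G, T.card = 3)
    (χ : V → Fin 3) (q : ℕ) :
    q * ((two G (cls χ 0)).card + (two G (cls χ 1)).card + (two G (cls χ 2)).card) ≤
      ((cls χ 0).card.choose 2 * (cls χ 1).card.choose 2 +
        (cls χ 0).card.choose 2 * (cls χ 2).card.choose 2 +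
        (cls χ 1).card.choose 2 * (cls χ 2).card.choose 2) +
      ((cls χ 0).card.choose 2 + (cls χ 1).card.choose 2 + (cls χ 2).card.choose 2) *
        (q + 1).choose 2 +
      (((cls χ 0).card - 1) + ((cls χ 1).card - 1) + ((cls χ 2).card - 1)) *
        (rainbowIn G χ).card := by
  have d01 : Disjoint (cls χ 0) (cls χ 1) := cls_disjoint χ (by decide)
  have d02 : Disjoint (cls χ 0) (cls χ 2) := cls_disjoint χ (by decide)
  have d12 : Disjoint (cls χ 1) (cls χ 2) := cls_disjoint χ (by decide)
  have c0 := class_le (G := G) (A := cls χ 0) (B := cls χ 1) (C := cls χ 2) d12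
    (cls_compl χ (by decide) (by decide) (by decide)) q
  have c1 := class_le (G := G) (A := cls χ 1) (B := cls χ 0) (C := cls χ 2) d02
    (cls_compl χ (by decide) (by decide) (by decide)) q
  have c2 := class_le (G := G) (A := cls χ 2) (B := cls χ 0) (C := cls χ 1) d01
    (cls_compl χ (by decide) (by decide) (by decide)) q
  have r01 := rect_ineq2 hG hG3 d01
  have r02 := rect_ineq2 hG hG3 d02
  have r12 := rect_ineq2 hG hG3 d12
  have m0 := (mixed hG hG3 d01 d02 d12).trans (Nat.mul_le_mul_left _
    (rainbow_inj G χ (i := 0) (j := 1) (k := 2) (by decide) (by decide) (by decide)))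
  have m1 := (mixed hG hG3 d01.symm d12 d02).trans (Nat.mul_le_mul_left _
    (rainbow_inj G χ (i := 1) (j := 0) (k := 2) (by decide) (by decide) (by decide)))
  have m2 := (mixed hG hG3 d02.symm d12.symm d01).trans (Nat.mul_le_mul_left _
    (rainbow_inj G χ (i := 2) (j := 0) (k := 1) (by decide) (by decide) (by decide)))
  rw [Nat.mul_add, Nat.mul_add, Nat.add_mul, Nat.add_mul, Nat.add_mul, Nat.add_mul]
  omega

/-- Trivial bound for the triples with exactly two vertices in a class. -/
theorem two_triv (G : Finset (Finset V)) (A : Finset V) :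
    (two G A).card ≤ A.card.choose 2 * Aᶜ.card := by
  refine (card_two_le G A).trans ?_
  refine (sum_le_card_nsmul _ _ Aᶜ.card fun e _ => ?_).trans (le_of_eq ?_)
  · exact card_le_card (filter_subset _ _)
  · simp [card_powersetCard]

end Pool.Agent.H53.TC
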