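import Mathlib

/-!
# Cuts of 3-graphs without a complete 4-vertex 3-graph: the counting argument

`G` is a set of triples on a finite vertex set `V` such that every 4-set contains a member of `G`.
The triples which are not in `G` form a 3-graph without four vertices spanning four edges. For a
set `A` of vertices we count the missing triples which meet both `A` and its complement.
-/

set_option autoImplicit false

open Finset

namespace Pool.Agent.H53.TC

variable {V : Type*} [Fintype V] [DecidableEq V]

/-- Every set of four vertices contains a member of `G`. -/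
def Covers (G : Finset (Finset V)) : Prop := ∀ Q : Finset V, Q.card = 4 → ∃ T ∈ G, T ⊆ Q

/-- The vertices `b` outside `A` for which `e ∪ {b}` is not in `G`. -/
def sOut (G : Finset (Finset V)) (A e : Finset V) : Finset V :=
  Aᶜ.filter fun b => insert b e ∉ G

/-- A triple is missing, if it has three elements and is not in `G`. -/
def missing (G : Finset (Finset V)) : Finset (Finset V) := (univ.powersetCard 3) \ G

/-- The missing triples which lie in `A` or in its complement. -/
def inner (G : Finset (Finset V)) (A : Finset V) : Finset (Finset V) :=
  (missing G).filter fun T => T ⊆ A ∨ T ⊆ Aᶜ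

/-- The missing triples with two vertices in `A`. -/
def two (G : Finset (Finset V)) (A : Finset V) : Finset (Finset V) :=
  (missing G).filter fun T => (T ∩ A).card = 2

theorem two_subset (G : Finset (Finset V)) (A : Finset V) :
    two G A ⊆ (A.powersetCard 2).biUnion fun e => (sOut G A e).image fun b => insert b e := by
  intro T hT
  simp only [two, missing, mem_filter, mem_sdiff, mem_powersetCard, subset_univ, true_and] at hT
  obtain ⟨⟨h3, hG⟩, h2⟩ := hT
  have h1 : (T \ A).card = 1 := by
    have := card_sdiff_add_card_inter T A
    omega
  obtain ⟨b, hb⟩ := card_eq_one.1 h1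
  have hb' : b ∈ T \ A := by rw [hb]; exact mem_singleton_self b
  rw [mem_sdiff] at hb'
  have hT' : insert b (T ∩ A) = T := by
    ext x
    rw [mem_insert, mem_inter]
    constructor
    · rintro (rfl | h)
      · exact hb'.1
      · exact h.1
    · intro hx
      by_cases hA : x ∈ A
      · exact Or.inr ⟨hx, hA⟩
      · left
        have : x ∈ T \ A := mem_sdiff.2 ⟨hx, hA⟩
        rw [hb] at this
        exact mem_singleton.1 this
  rw [mem_biUnion]
  refine ⟨T ∩ A, mem_powersetCard.2 ⟨inter_subset_right, h2⟩, ?_⟩
  rw [mem_image]
  refine ⟨b, ?_, hT'⟩
  rw [sOut, mem_filter, mem_compl]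
  exact ⟨hb'.2, by rw [hT']; exact hG⟩

theorem card_two_le (G : Finset (Finset V)) (A : Finset V) :
    (two G A).card ≤ ∑ e ∈ A.powersetCard 2, (sOut G A e).card :=
  (card_le_card (two_subset G A)).trans (card_biUnion_le.trans
    (sum_le_sum fun _ _ => card_image_le))

/-- Every missing triple lies in a part or has two vertices in `A` or in the complement. -/
theorem card_missing_le (G : Finset (Finset V)) (A : Finset V) :
    (missing G).card ≤ (inner G A).card + (two G A).card + (two G Aᶜ).card := by
  have h : missing G ⊆ (inner G A ∪ two G A) ∪ two G Aᶜ := by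
    intro T hT
    have h3 : T.card = 3 := by
      simp only [missing, mem_sdiff, mem_powersetCard] at hT
      exact hT.1.2
    have h4 : (T \ A).card + (T ∩ A).card = T.card := card_sdiff_add_card_inter T A
    have h5 : T ∩ Aᶜ = T \ A := by
      ext x; simp
    simp only [mem_union, inner, two, mem_filter, hT, true_and]
    rw [h5]
    have h6 : (T ∩ A).card = 0 ∨ (T ∩ A).card = 1 ∨ (T ∩ A).card = 2 ∨ (T ∩ A).card = 3 := by
      omega
    rcases h6 with h6 | h6 | h6 | h6
    · left; left; right
      intro x hx
      rw [mem_compl]
      intro hA
      have : x ∈ T ∩ A := mem_inter.2 ⟨hx, hA⟩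
      rw [card_eq_zero.1 h6] at this
      exact absurd this (notMem_empty x)
    · right; omega
    · left; right; exact h6
    · left; left; left
      intro x hx
      by_contra hA
      have h7 : (T \ A).card = 0 := by omega
      have : x ∈ T \ A := mem_sdiff.2 ⟨hx, hA⟩
      rw [card_eq_zero.1 h7] at this
      exact absurd this (notMem_empty x)
  refine (card_le_card h).trans ((card_union_le _ _).trans ?_)
  exact Nat.add_le_add_right (card_union_le _ _) _

theorem erase_union_of_mem_left_aux {e e' : Finset V} (hd : Disjoint e e') {x : V} (hx : x ∈ e) :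
    (e ∪ e').erase x = e.erase x ∪ e' := by
  ext z
  simp only [mem_erase, mem_union]
  constructor
  · rintro ⟨h1, h2 | h2⟩
    · exact Or.inl ⟨h1, h2⟩
    · exact Or.inr h2
  · rintro (⟨h1, h2⟩ | h2)
    · exact ⟨h1, Or.inl h2⟩
    · refine ⟨?_, Or.inr h2⟩
      rintro rfl
      exact disjoint_left.1 hd hx h2

/-- The rectangle inequality. -/
theorem rect_ineq {G : Finset (Finset V)} (hG : Covers G) (hG3 : ∀ T ∈ G, T.card = 3)
    (A : Finset V) :
    ∑ e ∈ A.powersetCard 2, (sOut G A e).card.choose 2 +
      ∑ e' ∈ Aᶜ.powersetCard 2, (sOut G Aᶜ e').card.choose 2 ≤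
      A.card.choose 2 * Aᶜ.card.choose 2 := by
  have h1 : ∀ e, (sOut G A e).card.choose 2 =
      ∑ e' ∈ Aᶜ.powersetCard 2, if e' ⊆ sOut G A e then 1 else 0 := by
    intro e
    rw [← card_powersetCard, ← card_filter]
    congr 1
    ext e'
    simp only [mem_powersetCard, mem_filter]
    constructor
    · rintro ⟨h1, h2⟩
      exact ⟨⟨h1.trans (filter_subset _ _), h2⟩, h1⟩
    · rintro ⟨⟨-, h2⟩, h1⟩
      exact ⟨h1, h2⟩
  have h2 : ∀ e', (sOut G Aᶜ e').card.choose 2 =
      ∑ e ∈ A.powersetCard 2, if e ⊆ sOut G Aᶜ e' then 1 else 0 := by
    intro e'
    rw [← card_powersetCard, ← card_filter]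
    congr 1
    ext e
    simp only [mem_powersetCard, mem_filter]
    constructor
    · rintro ⟨h1, h2⟩
      refine ⟨⟨h1.trans ((filter_subset _ _).trans ?_), h2⟩, h1⟩
      rw [compl_compl]
    · rintro ⟨⟨-, h2⟩, h1⟩
      exact ⟨h1, h2⟩
  calc ∑ e ∈ A.powersetCard 2, (sOut G A e).card.choose 2 +
      ∑ e' ∈ Aᶜ.powersetCard 2, (sOut G Aᶜ e').card.choose 2
      = ∑ e ∈ A.powersetCard 2, ∑ e' ∈ Aᶜ.powersetCard 2,
          ((if e' ⊆ sOut G A e then 1 else 0) + (if e ⊆ sOut G Aᶜ e' then 1 else 0)) := by
        rw [sum_congr rfl (fun e _ => h1 e), sum_congr rfl (fun e' _ => h2 e'),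
          sum_comm (s := Aᶜ.powersetCard 2), ← sum_add_distrib]
        exact sum_congr rfl fun e _ => (sum_add_distrib).symm
    _ ≤ ∑ e ∈ A.powersetCard 2, ∑ e' ∈ Aᶜ.powersetCard 2, 1 := by
        refine sum_le_sum fun e he => sum_le_sum fun e' he' => ?_
        by_cases k1 : e' ⊆ sOut G A e
        · by_cases k2 : e ⊆ sOut G Aᶜ e'
          · exfalso
            rw [mem_powersetCard] at he he'
            have hdis : Disjoint e e' := by
              refine disjoint_of_subset_left he.1 (disjoint_of_subset_right he'.1 ?_)
              exact disjoint_compl_right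
            have hcard : (e ∪ e').card = 4 := by
              rw [card_union_of_disjoint hdis, he.2, he'.2]
            obtain ⟨T, hT, hTQ⟩ := hG _ hcard
            have hT3 := hG3 T hT
            -- `T` is obtained from `e ∪ e'` by removing one vertex
            have hrem : ((e ∪ e') \ T).card = 1 := by
              rw [card_sdiff_of_subset hTQ]
              omega
            obtain ⟨x, hx⟩ := card_eq_one.1 hrem
            have hxm : x ∈ (e ∪ e') \ T := by rw [hx]; exact mem_singleton_self x
            rw [mem_sdiff, mem_union] at hxm
            have hTe : T = (e ∪ e').erase x := by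
              ext y
              rw [mem_erase]
              constructor
              · intro hy
                refine ⟨?_, hTQ hy⟩
                rintro rfl
                exact hxm.2 hy
              · rintro ⟨hyx, hy⟩
                by_contra hyT
                have : y ∈ (e ∪ e') \ T := mem_sdiff.2 ⟨hy, hyT⟩
                rw [hx] at this
                exact hyx (mem_singleton.1 this)
            rcases hxm.1 with hxe | hxe'
            · -- the triple is `{y} ∪ e'` with `y` the other vertex of `e`
              have hy1 : (e.erase x).card = 1 := by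
                rw [card_erase_of_mem hxe, he.2]
              obtain ⟨y, hy⟩ := card_eq_one.1 hy1
              have hye : y ∈ e.erase x := by rw [hy]; exact mem_singleton_self y
              rw [mem_erase] at hye
              have : T = insert y e' := by
                rw [hTe, erase_union_of_mem_left_aux hdis hxe, hy]
                ext z; simp
              have h5 := (mem_filter.1 (k2 hye.2)).2
              exact h5 (this ▸ hT)
            · have hy1 : (e'.erase x).card = 1 := by
                rw [card_erase_of_mem hxe', he'.2]
              obtain ⟨y, hy⟩ := card_eq_one.1 hy1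
              have hye : y ∈ e'.erase x := by rw [hy]; exact mem_singleton_self y
              rw [mem_erase] at hye
              have : T = insert y e := by
                rw [hTe, union_comm, erase_union_of_mem_left_aux hdis.symm hxe', hy]
                ext z; simp
              have h5 := (mem_filter.1 (k1 hye.2)).2
              exact h5 (this ▸ hT)
          · rw [if_pos k1, if_neg k2]
        · rw [if_neg k1]
          split_ifs <;> omega
    _ = A.card.choose 2 * Aᶜ.card.choose 2 := by
        simp [card_powersetCard]

end Pool.Agent.H53.TC
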