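import Pool.Agent.H53.TC.Arith

/-!
# Cuts of 3-graphs without a complete 4-vertex 3-graph: main theorem
-/

set_option autoImplicit false

open Finset

namespace Pool.Agent.H53.TC

private theorem poly0 {a b s : ℝ} (h : a + b = 3 * s) (hs : 2 ≤ s) (ha : 2 ≤ a) (hb : 2 ≤ b) :
    a * (a - 1) * (b * (b - 1)) + (a * (a - 1) + b * (b - 1)) * (s * (s + 1)) ≤
      2 * s * (s ^ 2 * (5 * s - 3)) := by
  obtain rfl : b = 3 * s - a := by linarith
  have h1 : 0 ≤ a * (3 * s - a) - 2 * (3 * s - 2) := by nlinarith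
  have h2 : 0 ≤ 9 / 4 * s ^ 2 - a * (3 * s - a) := by nlinarith [sq_nonneg (3 * s - 2 * a)]
  have h3 : 0 ≤ 1 / 4 * s ^ 2 + s - 3 := by nlinarith
  have h4 : 0 ≤ s ^ 2 * (7 * s ^ 2 - 12 * s + 12) := by
    apply mul_nonneg (sq_nonneg s); nlinarith
  nlinarith [mul_nonneg h1 h2, mul_nonneg h3 h2]

private theorem poly1 {a b s : ℝ} (h : a + b = 3 * s + 1) (hs : 1 ≤ s) (ha : 2 ≤ a)
    (hb : 2 ≤ b) :
    a * (a - 1) * (b * (b - 1)) + (a * (a - 1) + b * (b - 1)) * (s * (s + 1)) ≤
      2 * s * (s * (5 * s ^ 2 + 2 * s - 1)) := by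
  obtain rfl : b = 3 * s + 1 - a := by linarith
  have h1 : 0 ≤ a * (3 * s + 1 - a) - 2 * (3 * s - 1) := by nlinarith
  have h2 : 0 ≤ (3 * s + 1) ^ 2 / 4 - a * (3 * s + 1 - a) := by
    nlinarith [sq_nonneg (3 * s + 1 - 2 * a)]
  have h3 : 0 ≤ 1 / 4 * s ^ 2 + 5 / 2 * s - 7 / 4 := by nlinarith
  have h4 : 0 ≤ 7 * s ^ 4 - 8 * s ^ 3 - 6 * s ^ 2 + 8 * s - 1 := by
    have e : 7 * s ^ 4 - 8 * s ^ 3 - 6 * s ^ 2 + 8 * s - 1 =
      (s - 1) ^ 2 * ((s + 1) * (7 * s - 1)) := by ring
    rw [e]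
    have h5 : 0 ≤ s + 1 := by linarith
    have h6 : 0 ≤ 7 * s - 1 := by linarith
    positivity
  nlinarith [mul_nonneg h1 h2, mul_nonneg h3 h2]

private theorem poly2 {a b s : ℝ} (h : a + b = 3 * s + 2) (hs : 2 ≤ s) (ha : 2 ≤ a)
    (hb : 2 ≤ b) :
    a * (a - 1) * (b * (b - 1)) + (a * (a - 1) + b * (b - 1)) * (s * (s + 1)) ≤
      2 * s * (s * (5 * s ^ 2 + 7 * s + 2)) := by
  obtain rfl : b = 3 * s + 2 - a := by linarith
  have h1 : 0 ≤ a * (3 * s + 2 - a) - 2 * (3 * s) := by nlinarith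
  have h2 : 0 ≤ (3 * s + 2) ^ 2 / 4 - a * (3 * s + 2 - a) := by
    nlinarith [sq_nonneg (3 * s + 2 - 2 * a)]
  have h3 : 0 ≤ 1 / 4 * s ^ 2 + 4 * s := by nlinarith
  have h4 : 0 ≤ s ^ 2 * (7 * s ^ 2 - 4 * s - 20) := by
    apply mul_nonneg (sq_nonneg s); nlinarith
  nlinarith [mul_nonneg h1 h2, mul_nonneg h3 h2]

private theorem rob0 {a b s : ℝ} (h : a + b = 3 * s) (hs : 20 ≤ s) (ha : 0 ≤ a) (hb : 0 ≤ b) :
    a * (a - 1) * (b * (b - 1)) + (a * (a - 1) + b * (b - 1)) * (s * (s + 1)) ≤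
      2 * s * (s ^ 2 * (5 * s - 3)) - 4 * s * ((3 * s) ^ 3 / 300) := by
  obtain rfl : b = 3 * s - a := by linarith
  have h1 : 0 ≤ a * (3 * s - a) := mul_nonneg ha hb
  have h2 : 0 ≤ 9 / 4 * s ^ 2 - a * (3 * s - a) := by nlinarith [sq_nonneg (3 * s - 2 * a)]
  have h3 : 0 ≤ 1 / 4 * s ^ 2 - 5 * s + 1 := by nlinarith
  have h4 : 0 ≤ s ^ 2 * (31 * s ^ 2 - 300 * s + 300) := by
    apply mul_nonneg (sq_nonneg s); nlinarith
  nlinarith [mul_nonneg h1 h2, mul_nonneg h3 h2]

private theorem rob1 {a b s : ℝ} (h : a + b = 3 * s + 1) (hs : 20 ≤ s) (ha : 0 ≤ a)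
    (hb : 0 ≤ b) :
    a * (a - 1) * (b * (b - 1)) + (a * (a - 1) + b * (b - 1)) * (s * (s + 1)) ≤
      2 * s * (s * (5 * s ^ 2 + 2 * s - 1)) - 4 * s * ((3 * s + 1) ^ 3 / 300) := by
  obtain rfl : b = 3 * s + 1 - a := by linarith
  have h1 : 0 ≤ a * (3 * s + 1 - a) := mul_nonneg ha hb
  have h2 : 0 ≤ (3 * s + 1) ^ 2 / 4 - a * (3 * s + 1 - a) := by
    nlinarith [sq_nonneg (3 * s + 1 - 2 * a)]
  have h3 : 0 ≤ 1 / 4 * s ^ 2 - 7 / 2 * s + 1 / 4 := by nlinarith
  have h4 : 0 ≤ 93 * s ^ 4 - 1032 * s ^ 3 - 594 * s ^ 2 + 584 * s - 75 := by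
    have e : 93 * s ^ 4 - 1032 * s ^ 3 - 594 * s ^ 2 + 584 * s - 75 =
      s ^ 2 * ((s - 20) * (93 * s + 828) + 15966) + (584 * s - 75) := by ring
    rw [e]
    have h5 : 0 ≤ s - 20 := by linarith
    have h6 : 0 ≤ 584 * s - 75 := by linarith
    positivity
  nlinarith [mul_nonneg h1 h2, mul_nonneg h3 h2]

private theorem rob2 {a b s : ℝ} (h : a + b = 3 * s + 2) (hs : 20 ≤ s) (ha : 0 ≤ a)
    (hb : 0 ≤ b) :
    a * (a - 1) * (b * (b - 1)) + (a * (a - 1) + b * (b - 1)) * (s * (s + 1)) ≤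
      2 * s * (s * (5 * s ^ 2 + 7 * s + 2)) - 4 * s * ((3 * s + 2) ^ 3 / 300) := by
  obtain rfl : b = 3 * s + 2 - a := by linarith
  have h1 : 0 ≤ a * (3 * s + 2 - a) := mul_nonneg ha hb
  have h2 : 0 ≤ (3 * s + 2) ^ 2 / 4 - a * (3 * s + 2 - a) := by
    nlinarith [sq_nonneg (3 * s + 2 - 2 * a)]
  have h3 : 0 ≤ 1 / 4 * s ^ 2 - 2 * s := by nlinarith
  have h4 : 0 ≤ 93 * s ^ 4 - 1164 * s ^ 3 - 2076 * s ^ 2 - 128 * s := by
    have e : 93 * s ^ 4 - 1164 * s ^ 3 - 2076 * s ^ 2 - 128 * s =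
      s ^ 2 * ((s - 20) * (93 * s + 696) + 11716) + 128 * s * (s - 1) := by ring
    rw [e]
    have h5 : 0 ≤ s - 20 := by linarith
    have h6 : 0 ≤ s - 1 := by linarith
    have h7 : 0 ≤ s := by linarith
    positivity
  nlinarith [mul_nonneg h1 h2, mul_nonneg h3 h2]

variable {V : Type*} [Fintype V] [DecidableEq V]

/-- The number of missing triples meeting both parts is at most `C(n,3) - f(n)`. -/
theorem cut_le {G : Finset (Finset V)} (hG : Covers G) (hG3 : ∀ T ∈ G, T.card = 3)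
    (A : Finset V) (hn : 3 ≤ Fintype.card V) :
    (2 : ℝ) * ((two G A).card + (two G Aᶜ).card : ℕ) ≤
      2 * (((Fintype.card V).choose 3 : ℝ) - turanF (Fintype.card V)) := by
  set n := Fintype.card V with hnn
  set a := A.card with ha
  set b := Aᶜ.card with hb
  set K := (two G A).card + (two G Aᶜ).card with hK
  have hab : a + b = n := by rw [ha, hb, card_compl]; have := card_le_univ A; omega
  obtain ⟨s, hs1, hs⟩ : ∃ s, 1 ≤ s ∧ (n = 3 * s ∨ n = 3 * s + 1 ∨ n = 3 * s + 2) :=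
    ⟨n / 3, by omega, by omega⟩
  have hs1' : (1 : ℝ) ≤ s := by exact_mod_cast hs1
  have ht := turan_real n s hs hs1
  by_cases hsmall : a ≤ 1 ∨ b ≤ 1
  · -- the trivial bound
    have h1 := cross_triv G A
    rw [← ha, ← hb] at h1
    have h2 : 2 * K ≤ (n - 1) * (n - 2) := by
      have h3 : ∀ x y : ℕ, x ≤ 1 → x + y = n → 2 * (x.choose 2 * y + y.choose 2 * x) ≤
          (n - 1) * (n - 2) := by
        intro x y hx hxy
        have : x = 0 ∨ x = 1 := by omega
        rcases this with rfl | rfl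
        · simp
        · have hy : y = n - 1 := by omega
          rw [Nat.choose_eq_zero_of_lt (by norm_num), zero_mul, zero_add, mul_one, hy,
            Nat.choose_two_right]
          have h4 : (n - 1) * (n - 1 - 1) / 2 * 2 = (n - 1) * (n - 1 - 1) :=
            Nat.div_mul_cancel (Nat.even_mul_pred_self (n - 1)).two_dvd
          rw [mul_comm, h4]
          exact le_of_eq (by congr 1)
      rcases hsmall with h | h
      · exact (Nat.mul_le_mul_left 2 h1).trans (h3 a b h hab)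
      · refine (Nat.mul_le_mul_left 2 h1).trans ?_
        have := h3 b a h (by omega)
        rw [add_comm] at this
        exact this
    have h3 : (2 : ℝ) * K ≤ ((n : ℝ) - 1) * (n - 2) := by
      have h4 : ((2 * K : ℕ) : ℝ) ≤ (((n - 1) * (n - 2) : ℕ) : ℝ) := by exact_mod_cast h2
      rw [Nat.cast_mul, Nat.cast_mul, Nat.cast_sub (by omega), Nat.cast_sub (by omega)] at h4
      push_cast at h4
      exact h4
    refine h3.trans ?_
    rw [ht]
    have hs' : (0 : ℝ) ≤ s - 1 := by linarith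
    rcases hs with h | h | h
    · rw [if_pos h, h]
      push_cast
      nlinarith [mul_nonneg hs' (mul_nonneg hs' (by linarith : (0 : ℝ) ≤ 5 * s - 2))]
    · rw [if_neg (by omega), if_pos h, h]
      push_cast
      nlinarith [mul_nonneg hs' (mul_nonneg (by linarith : (0 : ℝ) ≤ s)
        (by linarith : (0 : ℝ) ≤ 5 * s - 2))]
    · rw [if_neg (by omega), if_neg (by omega), h]
      push_cast
      nlinarith [mul_nonneg (by linarith : (0 : ℝ) ≤ s)
        (by nlinarith : (0 : ℝ) ≤ 5 * s ^ 2 - 2 * s - 1)]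
  · push Not at hsmall
    have h1 := cross_le hG hG3 A s
    rw [← ha, ← hb, ← hK] at h1
    have h2 : (s : ℝ) * K ≤ (a.choose 2 : ℝ) * b.choose 2 +
        ((a.choose 2 : ℝ) + b.choose 2) * (s + 1).choose 2 := by exact_mod_cast h1
    have c1 := two_choose_two a
    have c2 := two_choose_two b
    have c3 := two_choose_two (s + 1)
    push_cast at c3
    have h3 : 4 * ((s : ℝ) * K) ≤ a * (a - 1) * (b * (b - 1)) +
        (a * (a - 1) + b * (b - 1)) * (s * (s + 1)) := by
      have e : (a : ℝ) * (a - 1) * (b * (b - 1)) + (a * (a - 1) + b * (b - 1)) * (s * (s + 1)) =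
          4 * ((a.choose 2 : ℝ) * b.choose 2 +
            ((a.choose 2 : ℝ) + b.choose 2) * (s + 1).choose 2) := by
        rw [← c1, ← c2, show (s : ℝ) * (s + 1) = (s + 1) * (s + 1 - 1) by ring, ← c3]
        ring
      rw [e]
      linarith
    have ha2 : (2 : ℝ) ≤ a := by exact_mod_cast hsmall.1
    have hb2 : (2 : ℝ) ≤ b := by exact_mod_cast hsmall.2
    have habr : (a : ℝ) + b = n := by exact_mod_cast hab
    have hspos : (0 : ℝ) < 2 * s := by linarith
    rw [ht]
    have key : ∀ t : ℝ, 4 * ((s : ℝ) * K) ≤ 2 * s * t → 2 * (K : ℝ) ≤ t := by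
      intro t h
      have : 2 * (s : ℝ) * (2 * K) ≤ 2 * s * t := by linarith
      exact le_of_mul_le_mul_left this hspos
    rcases hs with h | h | h
    · rw [if_pos h]
      have hs2 : (2 : ℝ) ≤ s := by
        have : 2 ≤ s := by omega
        exact_mod_cast this
      exact key _ (h3.trans (poly0 (by rw [habr, h]; push_cast; ring) hs2 ha2 hb2))
    · rw [if_neg (by omega), if_pos h]
      exact key _ (h3.trans (poly1 (by rw [habr, h]; push_cast; ring) hs1' ha2 hb2))
    · rw [if_neg (by omega), if_neg (by omega)]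
      by_cases hs2 : s = 1
      · have hn5 : a + b = 5 := by omega
        have : (a = 2 ∧ b = 3) ∨ (a = 3 ∧ b = 2) := by omega
        rw [hs2] at h3 ⊢
        rcases this with ⟨e1, e2⟩ | ⟨e1, e2⟩
        · rw [e1, e2] at h3
          push_cast at h3 ⊢
          linarith
        · rw [e1, e2] at h3
          push_cast at h3 ⊢
          linarith
      · have hs2' : (2 : ℝ) ≤ s := by
          have : 2 ≤ s := by omega
          exact_mod_cast this
        exact key _ (h3.trans (poly2 (by rw [habr, h]; push_cast; ring) hs2' ha2 hb2))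

/-- For `n ≥ 60` there is room for `n³/300` further missing triples. -/
theorem cut_le' {G : Finset (Finset V)} (hG : Covers G) (hG3 : ∀ T ∈ G, T.card = 3)
    (A : Finset V) (hn : 60 ≤ Fintype.card V) :
    (2 : ℝ) * ((two G A).card + (two G Aᶜ).card : ℕ) ≤
      2 * (((Fintype.card V).choose 3 : ℝ) - turanF (Fintype.card V)) -
        2 * ((Fintype.card V : ℝ) ^ 3 / 300) := by
  set n := Fintype.card V with hnn
  set a := A.card with ha
  set b := Aᶜ.card with hb
  set K := (two G A).card + (two G Aᶜ).card with hK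
  have hab : a + b = n := by rw [ha, hb, card_compl]; have := card_le_univ A; omega
  obtain ⟨s, hs1, hs⟩ : ∃ s, 20 ≤ s ∧ (n = 3 * s ∨ n = 3 * s + 1 ∨ n = 3 * s + 2) :=
    ⟨n / 3, by omega, by omega⟩
  have hs1' : (20 : ℝ) ≤ s := by exact_mod_cast hs1
  have ht := turan_real n s hs (by omega)
  have h1 := cross_le hG hG3 A s
  rw [← ha, ← hb, ← hK] at h1
  have h2 : (s : ℝ) * K ≤ (a.choose 2 : ℝ) * b.choose 2 +
      ((a.choose 2 : ℝ) + b.choose 2) * (s + 1).choose 2 := by exact_mod_cast h1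
  have c1 := two_choose_two a
  have c2 := two_choose_two b
  have c3 := two_choose_two (s + 1)
  push_cast at c3
  have h3 : 4 * ((s : ℝ) * K) ≤ a * (a - 1) * (b * (b - 1)) +
      (a * (a - 1) + b * (b - 1)) * (s * (s + 1)) := by
    have e : (a : ℝ) * (a - 1) * (b * (b - 1)) + (a * (a - 1) + b * (b - 1)) * (s * (s + 1)) =
        4 * ((a.choose 2 : ℝ) * b.choose 2 +
          ((a.choose 2 : ℝ) + b.choose 2) * (s + 1).choose 2) := by
      rw [← c1, ← c2, show (s : ℝ) * (s + 1) = (s + 1) * (s + 1 - 1) by ring, ← c3]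
      ring
    rw [e]
    linarith
  have ha2 : (0 : ℝ) ≤ a := by positivity
  have hb2 : (0 : ℝ) ≤ b := by positivity
  have habr : (a : ℝ) + b = n := by exact_mod_cast hab
  have hspos : (0 : ℝ) < 2 * s := by linarith
  rw [ht]
  have key : ∀ t u : ℝ, 4 * ((s : ℝ) * K) ≤ 2 * s * t - 4 * s * u → 2 * (K : ℝ) ≤ t - 2 * u := by
    intro t u h
    have : 2 * (s : ℝ) * (2 * K) ≤ 2 * s * (t - 2 * u) := by linarith
    exact le_of_mul_le_mul_left this hspos
  rcases hs with h | h | h
  · rw [if_pos h]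
    have := key _ _ (h3.trans (rob0 (by rw [habr, h]; push_cast; ring) hs1' ha2 hb2))
    rw [h]
    push_cast
    exact this
  · rw [if_neg (by omega), if_pos h]
    have := key _ _ (h3.trans (rob1 (by rw [habr, h]; push_cast; ring) hs1' ha2 hb2))
    rw [h]
    push_cast
    exact this
  · rw [if_neg (by omega), if_neg (by omega)]
    have := key _ _ (h3.trans (rob2 (by rw [habr, h]; push_cast; ring) hs1' ha2 hb2))
    rw [h]
    push_cast
    exact this

theorem card_add_missing {G : Finset (Finset V)} (hG3 : ∀ T ∈ G, T.card = 3) :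
    G.card + (missing G).card = (Fintype.card V).choose 3 := by
  have h : G ⊆ (univ : Finset V).powersetCard 3 := fun T hT =>
    mem_powersetCard.2 ⟨subset_univ _, hG3 T hT⟩
  rw [missing, card_sdiff_of_subset h, card_powersetCard, card_univ]
  have := card_le_card h
  rw [card_powersetCard, card_univ] at this
  omega

/-- Main theorem. -/
theorem main {G : Finset (Finset V)} (hG : Covers G) (hG3 : ∀ T ∈ G, T.card = 3)
    (A : Finset V) : turanF (Fintype.card V) ≤ G.card + (inner G A).card := by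
  rcases Nat.lt_or_ge (Fintype.card V) 3 with hn | hn
  · have : turanF (Fintype.card V) = 0 := by
      rcases (by omega : Fintype.card V = 0 ∨ Fintype.card V = 1 ∨ Fintype.card V = 2) with
        h | h | h <;> rw [h] <;> rfl
    omega
  · have h1 := cut_le hG hG3 A hn
    have h2 := card_add_missing hG3
    have h3 := card_missing_le G A
    have h4 : ((G.card : ℝ)) + (missing G).card = (Fintype.card V).choose 3 := by
      exact_mod_cast h2
    have h5 : ((missing G).card : ℝ) ≤ (inner G A).card +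
        ((two G A).card + (two G Aᶜ).card : ℕ) := by
      have : (missing G).card ≤ (inner G A).card + ((two G A).card + (two G Aᶜ).card) := by
        omega
      exact_mod_cast this
    have h6 : (turanF (Fintype.card V) : ℝ) ≤ G.card + (inner G A).card := by linarith
    exact_mod_cast h6

theorem main' {G : Finset (Finset V)} (hG : Covers G) (hG3 : ∀ T ∈ G, T.card = 3)
    (A : Finset V) (hn : 60 ≤ Fintype.card V) :
    (turanF (Fintype.card V) : ℝ) + (Fintype.card V : ℝ) ^ 3 / 300 ≤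
      G.card + (inner G A).card := by
  have h1 := cut_le' hG hG3 A hn
  have h2 := card_add_missing hG3
  have h3 := card_missing_le G A
  have h4 : ((G.card : ℝ)) + (missing G).card = (Fintype.card V).choose 3 := by
    exact_mod_cast h2
  have h5 : ((missing G).card : ℝ) ≤ (inner G A).card +
      ((two G A).card + (two G Aᶜ).card : ℕ) := by
    have : (missing G).card ≤ (inner G A).card + ((two G A).card + (two G Aᶜ).card) := by
      omega
    exact_mod_cast this
  linarith

end Pool.Agent.H53.TC
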