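import Mathlib

/-!
# Three cliques without transversal edges: the polynomial inequality
-/

set_option autoImplicit false

namespace Pool.Agent.H53.TC

/-- Four times the right hand side of the counting inequality. -/
def FF (a b c s : ℤ) : ℤ :=
  4 * s * (a * (b * c)) + (a * (a - 1) * (b * (b - 1)) + a * (a - 1) * (c * (c - 1)) +
    b * (b - 1) * (c * (c - 1))) +
    s * (s + 1) * (a * (a - 1) + b * (b - 1) + c * (c - 1))

theorem p0 {a b c s : ℤ} (hab : b ≤ a) (hbc : c ≤ b) (hc : 0 ≤ c) (h : a + b + c = 3 * s)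
    (hd : 2 ≤ b + c) (hs1 : 1 ≤ s) : FF a b c s ≤ 2 * s * (s ^ 2 * (5 * s - 3)) := by
  rcases lt_or_ge c s with hcs | hcs
  · rcases lt_or_ge s b with hbs | hbs
    · obtain ⟨x, rfl⟩ : ∃ x, a = s + 1 + x := ⟨a - s - 1, by ring⟩
      obtain ⟨y, rfl⟩ : ∃ y, b = s + 1 + y := ⟨b - s - 1, by ring⟩
      have hx : 0 ≤ x := by omega
      have hy : 0 ≤ y := by omega
      obtain rfl : s = x + y + 2 + c := by omega
      unfold FF
      have key : (0 : ℤ) ≤ x ^ 4 + 2 * x ^ 3 * y + 4 * x ^ 3 * c + 4 * x ^ 3 + x ^ 2 * y ^ 2 + 6 * x ^ 2 * y * c +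
        7 * x ^ 2 * y + 2 * x ^ 2 * c ^ 2 + 16 * x ^ 2 * c + 7 * x ^ 2 + 2 * x * y ^ 3 +
        6 * x * y ^ 2 * c + 7 * x * y ^ 2 + 2 * x * y * c ^ 2 + 22 * x * y * c + 13 * x * y +
        6 * x * c ^ 2 + 24 * x * c + 8 * x + y ^ 4 + 4 * y ^ 3 * c + 4 * y ^ 3 +
        2 * y ^ 2 * c ^ 2 + 16 * y ^ 2 * c + 7 * y ^ 2 + 6 * y * c ^ 2 + 24 * y * c + 8 * y +
        6 * c ^ 2 + 14 * c + 4 := by positivity
      linarith
    · obtain ⟨k, rfl⟩ : ∃ k, s = b + k := ⟨s - b, by ring⟩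
      have hk : 0 ≤ k := by omega
      obtain ⟨d, rfl⟩ : ∃ d, b = c + d := ⟨b - c, by ring⟩
      have hd0 : 0 ≤ d := by omega
      rcases (by omega : c = 0 ∨ 1 ≤ c) with hc0 | hc0
      · subst hc0
        obtain ⟨d', rfl⟩ : ∃ d', d = d' + 2 := ⟨d - 2, by ring⟩
        have hd' : 0 ≤ d' := by omega
        obtain rfl : a = (0 + (d' + 2) + k) + (2 * k + (d' + 2) + 0) := by omega
        unfold FF
        have key : (0 : ℤ) ≤ k ^ 4 + 10 * k ^ 3 * d' + 8 * k ^ 3 + 13 * k ^ 2 * d' ^ 2 + 31 * k ^ 2 * d' +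
          13 * k ^ 2 + 6 * k * d' ^ 3 + 25 * k * d' ^ 2 + 31 * k * d' + 10 * k + d' ^ 4 +
          6 * d' ^ 3 + 13 * d' ^ 2 + 12 * d' + 4 := by positivity
        linarith
      · obtain ⟨c', rfl⟩ : ∃ c', c = c' + 1 := ⟨c - 1, by ring⟩
        have hc' : 0 ≤ c' := by omega
        obtain rfl : a = (c' + 1 + d + k) + (2 * k + d + 0) := by omega
        unfold FF
        have key : (0 : ℤ) ≤ k ^ 4 + 10 * k ^ 3 * d + 16 * k ^ 3 * c' + 4 * k ^ 3 + 13 * k ^ 2 * d ^ 2 +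
          30 * k ^ 2 * d * c' + 9 * k ^ 2 * d + 6 * k ^ 2 * c' ^ 2 + 6 * k ^ 2 * c' +
          3 * k ^ 2 + 6 * k * d ^ 3 + 18 * k * d ^ 2 * c' + 7 * k * d ^ 2 + 6 * k * d * c' ^ 2 +
          6 * k * d * c' + 3 * k * d + d ^ 4 + 4 * d ^ 3 * c' + 2 * d ^ 3 + 2 * d ^ 2 * c' ^ 2 +
          2 * d ^ 2 * c' + d ^ 2 := by positivity
        linarith
  · obtain rfl : a = s := by omega
    obtain rfl : b = a := by omega
    obtain rfl : c = b := by omega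
    unfold FF
    exact le_of_eq (by ring)

theorem p1 {a b c s : ℤ} (hab : b ≤ a) (hbc : c ≤ b) (hc : 0 ≤ c) (h : a + b + c = 3 * s + 1)
    (hd : 2 ≤ b + c) (hs1 : 1 ≤ s) : FF a b c s ≤ 2 * s * (s * (5 * s ^ 2 + 2 * s - 1)) := by
  rcases lt_or_ge c s with hcs | hcs
  · rcases lt_or_ge s b with hbs | hbs
    · obtain ⟨x, rfl⟩ : ∃ x, a = s + 1 + x := ⟨a - s - 1, by ring⟩
      obtain ⟨y, rfl⟩ : ∃ y, b = s + 1 + y := ⟨b - s - 1, by ring⟩
      have hx : 0 ≤ x := by omega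
      have hy : 0 ≤ y := by omega
      obtain rfl : s = x + y + 1 + c := by omega
      unfold FF
      have key : (0 : ℤ) ≤ x ^ 4 + 2 * x ^ 3 * y + 4 * x ^ 3 * c + 2 * x ^ 3 + x ^ 2 * y ^ 2 + 6 * x ^ 2 * y * c +
        3 * x ^ 2 * y + 2 * x ^ 2 * c ^ 2 + 10 * x ^ 2 * c + x ^ 2 + 2 * x * y ^ 3 +
        6 * x * y ^ 2 * c + 3 * x * y ^ 2 + 2 * x * y * c ^ 2 + 14 * x * y * c + x * y +
        4 * x * c ^ 2 + 8 * x * c + y ^ 4 + 4 * y ^ 3 * c + 2 * y ^ 3 + 2 * y ^ 2 * c ^ 2 +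
        10 * y ^ 2 * c + y ^ 2 + 4 * y * c ^ 2 + 8 * y * c + 2 * c ^ 2 + 2 * c := by positivity
      linarith
    · obtain ⟨k, rfl⟩ : ∃ k, s = b + k := ⟨s - b, by ring⟩
      have hk : 0 ≤ k := by omega
      obtain ⟨d, rfl⟩ : ∃ d, b = c + d := ⟨b - c, by ring⟩
      have hd0 : 0 ≤ d := by omega
      rcases (by omega : c = 0 ∨ 1 ≤ c) with hc0 | hc0
      · subst hc0
        obtain ⟨d', rfl⟩ : ∃ d', d = d' + 2 := ⟨d - 2, by ring⟩
        have hd' : 0 ≤ d' := by omega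
        obtain rfl : a = (0 + (d' + 2) + k) + (2 * k + (d' + 2) + 1) := by omega
        unfold FF
        have key : (0 : ℤ) ≤ k ^ 4 + 10 * k ^ 3 * d' + 12 * k ^ 3 + 13 * k ^ 2 * d' ^ 2 + 45 * k ^ 2 * d' +
          33 * k ^ 2 + 6 * k * d' ^ 3 + 35 * k * d' ^ 2 + 63 * k * d' + 34 * k + d' ^ 4 +
          8 * d' ^ 3 + 23 * d' ^ 2 + 28 * d' + 12 := by positivity
        linarith
      · obtain ⟨c', rfl⟩ : ∃ c', c = c' + 1 := ⟨c - 1, by ring⟩
        have hc' : 0 ≤ c' := by omega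
        obtain rfl : a = (c' + 1 + d + k) + (2 * k + d + 1) := by omega
        unfold FF
        have key : (0 : ℤ) ≤ k ^ 4 + 10 * k ^ 3 * d + 16 * k ^ 3 * c' + 8 * k ^ 3 + 13 * k ^ 2 * d ^ 2 +
          30 * k ^ 2 * d * c' + 23 * k ^ 2 * d + 6 * k ^ 2 * c' ^ 2 + 22 * k ^ 2 * c' +
          11 * k ^ 2 + 6 * k * d ^ 3 + 18 * k * d ^ 2 * c' + 17 * k * d ^ 2 +
          6 * k * d * c' ^ 2 + 26 * k * d * c' + 15 * k * d + 4 * k * c' ^ 2 + 8 * k * c' +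
          4 * k + d ^ 4 + 4 * d ^ 3 * c' + 4 * d ^ 3 + 2 * d ^ 2 * c' ^ 2 + 8 * d ^ 2 * c' +
          5 * d ^ 2 + 2 * d * c' ^ 2 + 4 * d * c' + 2 * d := by positivity
        linarith
  · obtain rfl : a = s + 1 := by omega
    obtain rfl : b = s := by omega
    obtain rfl : c = b := by omega
    unfold FF
    exact le_of_eq (by ring)

theorem p2 {a b c s : ℤ} (hab : b ≤ a) (hbc : c ≤ b) (hc : 0 ≤ c) (h : a + b + c = 3 * s + 2)
    (hd : 2 ≤ b + c) (hs1 : 1 ≤ s) : FF a b c s ≤ 2 * s * (s * (5 * s ^ 2 + 7 * s + 2)) := by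
  rcases lt_or_ge c s with hcs | hcs
  · rcases lt_or_ge s b with hbs | hbs
    · obtain ⟨x, rfl⟩ : ∃ x, a = s + 1 + x := ⟨a - s - 1, by ring⟩
      obtain ⟨y, rfl⟩ : ∃ y, b = s + 1 + y := ⟨b - s - 1, by ring⟩
      have hx : 0 ≤ x := by omega
      have hy : 0 ≤ y := by omega
      obtain rfl : s = x + y + 0 + c := by omega
      unfold FF
      have key : (0 : ℤ) ≤ x ^ 4 + 2 * x ^ 3 * y + 4 * x ^ 3 * c + x ^ 2 * y ^ 2 + 6 * x ^ 2 * y * c +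
        -1 * x ^ 2 * y + 2 * x ^ 2 * c ^ 2 + 4 * x ^ 2 * c + -1 * x ^ 2 + 2 * x * y ^ 3 +
        6 * x * y ^ 2 * c + -1 * x * y ^ 2 + 2 * x * y * c ^ 2 + 6 * x * y * c + -3 * x * y +
        2 * x * c ^ 2 + y ^ 4 + 4 * y ^ 3 * c + 2 * y ^ 2 * c ^ 2 + 4 * y ^ 2 * c + -1 * y ^ 2 +
        2 * y * c ^ 2 := by
        have h1 : 0 ≤ x ^ 4 - x ^ 2 := by
          rcases (by omega : x = 0 ∨ 1 ≤ x) with h | h
          · subst h; norm_num
          · have : 0 ≤ x ^ 2 * ((x - 1) * (x + 1)) :=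
              mul_nonneg (by positivity) (mul_nonneg (by omega) (by omega))
            linarith
        have h2 : 0 ≤ y ^ 4 - y ^ 2 := by
          rcases (by omega : y = 0 ∨ 1 ≤ y) with h | h
          · subst h; norm_num
          · have : 0 ≤ y ^ 2 * ((y - 1) * (y + 1)) :=
              mul_nonneg (by positivity) (mul_nonneg (by omega) (by omega))
            linarith
        have h3 : 0 ≤ x * y * (2 * x ^ 2 + x * y + 2 * y ^ 2 - x - y - 3) := by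
          rcases (by omega : x = 0 ∨ 1 ≤ x) with h | h
          · subst h; simp
          rcases (by omega : y = 0 ∨ 1 ≤ y) with h' | h'
          · subst h'; simp
          · refine mul_nonneg (by positivity) ?_
            nlinarith [mul_nonneg (sub_nonneg.2 h) (sub_nonneg.2 h')]
        have h4 : 0 ≤ 2 * x ^ 2 * c ^ 2 + 4 * x ^ 3 * c + 2 * y ^ 2 * c ^ 2 + 4 * y ^ 3 * c +
            2 * x * y * c ^ 2 + 6 * x ^ 2 * y * c + 6 * x * y ^ 2 * c + 2 * x * c ^ 2 +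
            2 * y * c ^ 2 + 4 * x ^ 2 * c + 4 * y ^ 2 * c + 6 * x * y * c := by positivity
        nlinarith [h1, h2, h3, h4]
      linarith
    · obtain ⟨k, rfl⟩ : ∃ k, s = b + k := ⟨s - b, by ring⟩
      have hk : 0 ≤ k := by omega
      obtain ⟨d, rfl⟩ : ∃ d, b = c + d := ⟨b - c, by ring⟩
      have hd0 : 0 ≤ d := by omega
      rcases (by omega : c = 0 ∨ 1 ≤ c) with hc0 | hc0
      · subst hc0
        obtain ⟨d', rfl⟩ : ∃ d', d = d' + 2 := ⟨d - 2, by ring⟩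
        have hd' : 0 ≤ d' := by omega
        obtain rfl : a = (0 + (d' + 2) + k) + (2 * k + (d' + 2) + 2) := by omega
        unfold FF
        have key : (0 : ℤ) ≤ k ^ 4 + 10 * k ^ 3 * d' + 16 * k ^ 3 + 13 * k ^ 2 * d' ^ 2 + 59 * k ^ 2 * d' +
          59 * k ^ 2 + 6 * k * d' ^ 3 + 45 * k * d' ^ 2 + 107 * k * d' + 80 * k + d' ^ 4 +
          10 * d' ^ 3 + 37 * d' ^ 2 + 60 * d' + 36 := by positivity
        linarith
      · obtain ⟨c', rfl⟩ : ∃ c', c = c' + 1 := ⟨c - 1, by ring⟩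
        have hc' : 0 ≤ c' := by omega
        obtain rfl : a = (c' + 1 + d + k) + (2 * k + d + 2) := by omega
        unfold FF
        have key : (0 : ℤ) ≤ k ^ 4 + 10 * k ^ 3 * d + 16 * k ^ 3 * c' + 12 * k ^ 3 + 13 * k ^ 2 * d ^ 2 +
          30 * k ^ 2 * d * c' + 37 * k ^ 2 * d + 6 * k ^ 2 * c' ^ 2 + 38 * k ^ 2 * c' +
          25 * k ^ 2 + 6 * k * d ^ 3 + 18 * k * d ^ 2 * c' + 27 * k * d ^ 2 +
          6 * k * d * c' ^ 2 + 46 * k * d * c' + 39 * k * d + 8 * k * c' ^ 2 + 28 * k * c' +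
          18 * k + d ^ 4 + 4 * d ^ 3 * c' + 6 * d ^ 3 + 2 * d ^ 2 * c' ^ 2 + 14 * d ^ 2 * c' +
          13 * d ^ 2 + 4 * d * c' ^ 2 + 16 * d * c' + 12 * d + 2 * c' ^ 2 + 6 * c' + 4 := by positivity
        linarith
  · rcases (by omega : (a = s + 1 ∧ b = s + 1 ∧ c = s) ∨ (a = s + 2 ∧ b = s ∧ c = s)) with
      ⟨h1, h2, h3⟩ | ⟨h1, h2, h3⟩
    · subst h1 h2 h3
      unfold FF
      exact le_of_eq (by ring)
    · subst h1 h2 h3
      unfold FF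
      nlinarith

end Pool.Agent.H53.TC
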