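import Pool.Agent.H53.TC.Colour
import Pool.Agent.H53.TC.Poly

/-!
# Three cliques without transversal edges: main theorem
-/

set_option autoImplicit false

open Finset

namespace Pool.Agent.H53.TC

theorem FF_comm (a b c s : ℤ) : FF a b c s = FF b a c s := by unfold FF; ring

theorem FF_comm' (a b c s : ℤ) : FF a b c s = FF a c b s := by unfold FF; ring

/-- Sorting. -/
theorem sorted {P : ℤ → ℤ → ℤ → Prop} (h1 : ∀ a b c, P a b c → P b a c)
    (h2 : ∀ a b c, P a b c → P a c b) (h : ∀ a b c, b ≤ a → c ≤ b → P a b c) (a b c : ℤ) :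
    P a b c := by
  rcases le_total b a with x | x <;> rcases le_total c b with y | y <;>
    rcases le_total c a with z | z
  · exact h a b c x y
  · exact h a b c x y
  · exact h2 _ _ _ (h a c b z y)
  · exact h2 _ _ _ (h1 _ _ _ (h c a b z x))
  · exact h1 _ _ _ (h b a c x z)
  · exact h1 _ _ _ (h2 _ _ _ (h b c a y z))
  · exact h1 _ _ _ (h2 _ _ _ (h1 _ _ _ (h c b a y x)))
  · exact h1 _ _ _ (h2 _ _ _ (h1 _ _ _ (h c b a y x)))

theorem p0' (a b c s : ℤ) : 0 ≤ a → 0 ≤ b → 0 ≤ c → 2 ≤ a + b → 2 ≤ a + c → 2 ≤ b + c →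
    a + b + c = 3 * s → FF a b c s ≤ 2 * s * (s ^ 2 * (5 * s - 3)) := by
  refine sorted (P := fun a b c => 0 ≤ a → 0 ≤ b → 0 ≤ c → 2 ≤ a + b → 2 ≤ a + c → 2 ≤ b + c →
    a + b + c = 3 * s → FF a b c s ≤ 2 * s * (s ^ 2 * (5 * s - 3))) ?_ ?_ ?_ a b c
  · intro a b c h i1 i2 i3 i4 i5 i6 i7
    rw [FF_comm]
    exact h i2 i1 i3 (by linarith) i6 i5 (by linarith)
  · intro a b c h i1 i2 i3 i4 i5 i6 i7
    rw [FF_comm']
    exact h i1 i3 i2 i5 i4 (by linarith) (by linarith)
  · intro a b c x y i1 i2 i3 i4 i5 i6 i7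
    exact p0 x y i3 i7 i6 (by omega)

theorem p1' (a b c s : ℤ) : 0 ≤ a → 0 ≤ b → 0 ≤ c → 2 ≤ a + b → 2 ≤ a + c → 2 ≤ b + c →
    a + b + c = 3 * s + 1 → FF a b c s ≤ 2 * s * (s * (5 * s ^ 2 + 2 * s - 1)) := by
  refine sorted (P := fun a b c => 0 ≤ a → 0 ≤ b → 0 ≤ c → 2 ≤ a + b → 2 ≤ a + c → 2 ≤ b + c →
    a + b + c = 3 * s + 1 → FF a b c s ≤ 2 * s * (s * (5 * s ^ 2 + 2 * s - 1))) ?_ ?_ ?_ a b c
  · intro a b c h i1 i2 i3 i4 i5 i6 i7
    rw [FF_comm]
    exact h i2 i1 i3 (by linarith) i6 i5 (by linarith)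
  · intro a b c h i1 i2 i3 i4 i5 i6 i7
    rw [FF_comm']
    exact h i1 i3 i2 i5 i4 (by linarith) (by linarith)
  · intro a b c x y i1 i2 i3 i4 i5 i6 i7
    exact p1 x y i3 i7 i6 (by omega)

theorem p2' (a b c s : ℤ) : 0 ≤ a → 0 ≤ b → 0 ≤ c → 2 ≤ a + b → 2 ≤ a + c → 2 ≤ b + c →
    1 ≤ s → a + b + c = 3 * s + 2 → FF a b c s ≤ 2 * s * (s * (5 * s ^ 2 + 7 * s + 2)) := by
  refine sorted (P := fun a b c => 0 ≤ a → 0 ≤ b → 0 ≤ c → 2 ≤ a + b → 2 ≤ a + c → 2 ≤ b + c →
    1 ≤ s → a + b + c = 3 * s + 2 → FF a b c s ≤ 2 * s * (s * (5 * s ^ 2 + 7 * s + 2)))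
    ?_ ?_ ?_ a b c
  · intro a b c h i1 i2 i3 i4 i5 i6 i0 i7
    rw [FF_comm]
    exact h i2 i1 i3 (by linarith) i6 i5 i0 (by linarith)
  · intro a b c h i1 i2 i3 i4 i5 i6 i0 i7
    rw [FF_comm']
    exact h i1 i3 i2 i5 i4 (by linarith) i0 (by linarith)
  · intro a b c x y i1 i2 i3 i4 i5 i6 i0 i7
    exact p2 x y i3 i7 i6 i0

variable {V : Type*} [Fintype V] [DecidableEq V]

theorem cls_card (χ : V → Fin 3) :
    (cls χ 0).card + (cls χ 1).card + (cls χ 2).card = Fintype.card V := by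
  have h := cls_compl χ (i := 0) (j := 1) (k := 2) (by decide) (by decide) (by decide)
  have h1 : (cls χ 0)ᶜ.card = (cls χ 1).card + (cls χ 2).card := by
    rw [h, card_union_of_disjoint (cls_disjoint χ (by decide))]
  rw [card_compl] at h1
  have := card_le_univ (cls χ 0)
  omega

/-- The polynomial inequality in terms of `turanF`. -/
theorem poly_turan {a b c n s : ℕ} (hn : a + b + c = n)
    (hs : n = 3 * s ∨ n = 3 * s + 1 ∨ n = 3 * s + 2) (hs1 : 1 ≤ s) (h1 : 2 ≤ a + b)
    (h2 : 2 ≤ a + c) (h3 : 2 ≤ b + c) :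
    ((FF a b c s : ℤ) : ℝ) ≤ 2 * s * (2 * ((n.choose 3 : ℝ) - turanF n)) := by
  rw [turan_real n s hs hs1]
  rcases hs with h | h | h
  · rw [if_pos h]
    have := p0' a b c s (by positivity) (by positivity) (by positivity) (by exact_mod_cast h1)
      (by exact_mod_cast h2) (by exact_mod_cast h3) (by exact_mod_cast hn.trans h)
    exact_mod_cast this
  · rw [if_neg (by omega), if_pos h]
    have := p1' a b c s (by positivity) (by positivity) (by positivity) (by exact_mod_cast h1)
      (by exact_mod_cast h2) (by exact_mod_cast h3) (by exact_mod_cast hn.trans h)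
    exact_mod_cast this
  · rw [if_neg (by omega), if_neg (by omega)]
    have := p2' a b c s (by positivity) (by positivity) (by positivity) (by exact_mod_cast h1)
      (by exact_mod_cast h2) (by exact_mod_cast h3) (by exact_mod_cast hs1)
      (by exact_mod_cast hn.trans h)
    exact_mod_cast this

/-- `(n-1)(n-2)/2 ≤ C(n,3) - f(n)`. -/
theorem triv_turan {n : ℕ} (hn : 3 ≤ n) :
    ((n : ℝ) - 1) * (n - 2) ≤ 2 * ((n.choose 3 : ℝ) - turanF n) := by
  obtain ⟨s, hs1, hs⟩ : ∃ s, 1 ≤ s ∧ (n = 3 * s ∨ n = 3 * s + 1 ∨ n = 3 * s + 2) :=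
    ⟨n / 3, by omega, by omega⟩
  have hs1' : (1 : ℝ) ≤ s := by exact_mod_cast hs1
  rw [turan_real n s hs hs1]
  have hs' : (0 : ℝ) ≤ s - 1 := by linarith
  rcases hs with h | h | h
  · rw [if_pos h, h]
    push_cast
    nlinarith [mul_nonneg hs' (mul_nonneg hs' (by linarith : (0 : ℝ) ≤ 5 * s - 2))]
  · rw [if_neg (by omega), if_pos h, h]
    push_cast
    nlinarith [mul_nonneg hs' (mul_nonneg (by linarith : (0 : ℝ) ≤ s)
      (by linarith : (0 : ℝ) ≤ 5 * s - 2))]
  · rw [if_neg (by omega), if_neg (by omega), h]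
    push_cast
    nlinarith [mul_nonneg (by linarith : (0 : ℝ) ≤ s)
      (by nlinarith : (0 : ℝ) ≤ 5 * s ^ 2 - 2 * s - 1)]

theorem two_small {G : Finset (Finset V)} {A : Finset V} (h : A.card ≤ 1) :
    (two G A).card = 0 := by
  have := two_triv G A
  rw [Nat.choose_eq_zero_of_lt (by omega), zero_mul] at this
  omega

theorem two_large {G : Finset (Finset V)} {A : Finset V} (h : Aᶜ.card ≤ 1) :
    2 * (two G A).card ≤ (Fintype.card V - 1) * (Fintype.card V - 2) := by
  have h1 := two_triv G A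
  have h2 : A.card + Aᶜ.card = Fintype.card V := by
    rw [card_compl]; have := card_le_univ A; omega
  rcases (by omega : Aᶜ.card = 0 ∨ Aᶜ.card = 1) with h3 | h3
  · rw [h3, mul_zero] at h1
    have : (two G A).card = 0 := by omega
    rw [this]; omega
  · rw [h3, mul_one] at h1
    have h4 : A.card = Fintype.card V - 1 := by omega
    rw [h4, Nat.choose_two_right] at h1
    have h5 : (Fintype.card V - 1) * (Fintype.card V - 1 - 1) / 2 * 2 =
        (Fintype.card V - 1) * (Fintype.card V - 1 - 1) :=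
      Nat.div_mul_cancel (Nat.even_mul_pred_self _).two_dvd
    rw [Nat.sub_sub] at h5 h1
    norm_num at h5 h1
    omega

theorem two_sum_large {G : Finset (Finset V)} (χ : V → Fin 3)
    (h : (cls χ 0).card + (cls χ 1).card ≤ 1 ∨ (cls χ 0).card + (cls χ 2).card ≤ 1 ∨
      (cls χ 1).card + (cls χ 2).card ≤ 1) :
    2 * ((two G (cls χ 0)).card + (two G (cls χ 1)).card + (two G (cls χ 2)).card) ≤
      (Fintype.card V - 1) * (Fintype.card V - 2) := by
  have hc := cls_card χ
  have hcompl : ∀ i, (cls χ i)ᶜ.card = Fintype.card V - (cls χ i).card := fun i => by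
    rw [card_compl]
  rcases h with h | h | h
  · have e0 := two_small (G := G) (A := cls χ 0) (by omega)
    have e1 := two_small (G := G) (A := cls χ 1) (by omega)
    have e2 := two_large (G := G) (A := cls χ 2) (by rw [hcompl]; omega)
    rw [e0, e1]; simpa using e2
  · have e0 := two_small (G := G) (A := cls χ 0) (by omega)
    have e1 := two_small (G := G) (A := cls χ 2) (by omega)
    have e2 := two_large (G := G) (A := cls χ 1) (by rw [hcompl]; omega)
    rw [e0, e1]; simpa using e2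
  · have e0 := two_small (G := G) (A := cls χ 1) (by omega)
    have e1 := two_small (G := G) (A := cls χ 2) (by omega)
    have e2 := two_large (G := G) (A := cls χ 0) (by rw [hcompl]; omega)
    rw [e0, e1]; simpa using e2

theorem card_add_missing {G : Finset (Finset V)} (hG3 : ∀ T ∈ G, T.card = 3) :
    G.card + (missing G).card = (Fintype.card V).choose 3 := by
  have h : G ⊆ (univ : Finset V).powersetCard 3 := fun T hT =>
    mem_powersetCard.2 ⟨subset_univ _, hG3 T hT⟩
  rw [missing, card_sdiff_of_subset h, card_powersetCard, card_univ]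
  have := card_le_card h
  rw [card_powersetCard, card_univ] at this
  omega

/-- Main theorem. -/
theorem main3 {G : Finset (Finset V)} (hG : Covers G) (hG3 : ∀ T ∈ G, T.card = 3)
    (χ : V → Fin 3) :
    turanF (Fintype.card V) ≤ G.card + (monoMissing G χ).card + 2 * (rainbowIn G χ).card := by
  set n := Fintype.card V with hn
  rcases Nat.lt_or_ge n 3 with h3 | h3
  · have : turanF n = 0 := by
      rcases (by omega : n = 0 ∨ n = 1 ∨ n = 2) with h | h | h <;> rw [h] <;> rfl
    omega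
  obtain ⟨s, hs1, hs⟩ : ∃ s, 1 ≤ s ∧ (n = 3 * s ∨ n = 3 * s + 1 ∨ n = 3 * s + 2) :=
    ⟨n / 3, by omega, by omega⟩
  have hsum := cls_card χ
  have hmiss := missing_le G χ
  have htot := rainbow_total hG3 χ
  have hcard := card_add_missing hG3
  rw [← hn] at hsum hcard
  set a := (cls χ 0).card with ha
  set b := (cls χ 1).card with hb
  set c := (cls χ 2).card with hc
  set ρ := (rainbowIn G χ).card with hρ
  set rm := (rainbowMissing G χ).card with hrm
  set mo := (monoMissing G χ).card with hmo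
  set N := (two G (cls χ 0)).card + (two G (cls χ 1)).card + (two G (cls χ 2)).card with hN
  have hmiss' : ((missing G).card : ℝ) ≤ mo + rm + N := by
    have : (missing G).card ≤ mo + rm + N := by omega
    exact_mod_cast this
  have htot' : (rm : ℝ) + ρ ≤ a * (b * c) := by exact_mod_cast htot
  have hcard' : (G.card : ℝ) + (missing G).card = (n.choose 3 : ℕ) := by exact_mod_cast hcard
  suffices h : (turanF n : ℝ) ≤ G.card + mo + 2 * ρ by exact_mod_cast h
  by_cases hdeg : a + b ≤ 1 ∨ a + c ≤ 1 ∨ b + c ≤ 1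
  · have h1 := two_sum_large (G := G) χ hdeg
    rw [← hN, ← hn] at h1
    have h2 : (2 : ℝ) * N ≤ ((n : ℝ) - 1) * (n - 2) := by
      have h4 : ((2 * N : ℕ) : ℝ) ≤ (((n - 1) * (n - 2) : ℕ) : ℝ) := by exact_mod_cast h1
      rw [Nat.cast_mul, Nat.cast_mul, Nat.cast_sub (by omega), Nat.cast_sub (by omega)] at h4
      push_cast at h4
      exact h4
    have h4 := triv_turan h3
    have h5 : a * (b * c) = 0 := by
      rcases hdeg with h | h | h
      · rcases (by omega : a = 0 ∨ b = 0) with h | h <;> rw [h] <;> simp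
      · rcases (by omega : a = 0 ∨ c = 0) with h | h <;> rw [h] <;> simp
      · rcases (by omega : b = 0 ∨ c = 0) with h | h <;> rw [h] <;> simp
    have h6 : (a : ℝ) * (b * c) = 0 := by exact_mod_cast h5
    have h7 : (0 : ℝ) ≤ ρ := by positivity
    have h8 : (0 : ℝ) ≤ rm := by positivity
    linarith
  · push Not at hdeg
    have h1 := count_main hG hG3 χ s
    rw [← ha, ← hb, ← hc, ← hρ, ← hN] at h1
    have h2 : ((a - 1) + (b - 1) + (c - 1)) * ρ ≤ 3 * s * ρ :=
      Nat.mul_le_mul_right _ (by omega)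
    have h3' : s * N ≤ (a.choose 2 * b.choose 2 + a.choose 2 * c.choose 2 +
        b.choose 2 * c.choose 2) + (a.choose 2 + b.choose 2 + c.choose 2) * (s + 1).choose 2 +
        3 * s * ρ := by omega
    have h4 : (s : ℝ) * N ≤ ((a.choose 2 : ℝ) * b.choose 2 + (a.choose 2 : ℝ) * c.choose 2 +
        (b.choose 2 : ℝ) * c.choose 2) +
        ((a.choose 2 : ℝ) + b.choose 2 + c.choose 2) * (s + 1).choose 2 + 3 * s * ρ := by
      exact_mod_cast h3'
    have c1 := two_choose_two a
    have c2 := two_choose_two b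
    have c3 := two_choose_two c
    have c4 := two_choose_two (s + 1)
    push_cast at c4
    have h5 : ((FF a b c s : ℤ) : ℝ) = 4 * s * (a * (b * c)) +
        4 * (((a.choose 2 : ℝ) * b.choose 2 + (a.choose 2 : ℝ) * c.choose 2 +
        (b.choose 2 : ℝ) * c.choose 2) +
        ((a.choose 2 : ℝ) + b.choose 2 + c.choose 2) * (s + 1).choose 2) := by
      unfold FF
      push_cast
      rw [← c1, ← c2, ← c3, show (s : ℝ) * (s + 1) = (s + 1) * (s + 1 - 1) by ring, ← c4]
      ring
    have h6 := poly_turan (a := a) (b := b) (c := c) hsum hs hs1 (by omega) (by omega) (by omega)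
    have hspos : (0 : ℝ) < 2 * s := by
      have : (1 : ℝ) ≤ s := by exact_mod_cast hs1
      linarith
    have h7 : 2 * (s : ℝ) * (2 * N + 2 * (a * (b * c))) ≤
        2 * s * (2 * ((n.choose 3 : ℝ) - turanF n) + 6 * ρ) := by
      linarith
    have h8 := le_of_mul_le_mul_left h7 hspos
    linarith

end Pool.Agent.H53.TC
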