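import Pool.Agent.H53.TC.Arith

/-!
# Three cliques without transversal edges: the counting argument
-/

set_option autoImplicit false

open Finset

namespace Pool.Agent.H53.TC

variable {V : Type*} [Fintype V] [DecidableEq V]

/-- The vertices `v` of `B` for which `e ∪ {v}` is not in `G`. -/
def sO (G : Finset (Finset V)) (B e : Finset V) : Finset V := B.filter fun v => insert v e ∉ G

/-- A triple inside a 4-set is obtained by removing one vertex. -/
theorem exists_erase {Q T : Finset V} (hQ : Q.card = 4) (hT : T.card = 3) (h : T ⊆ Q) :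
    ∃ y ∈ Q, T = Q.erase y := by
  have hrem : (Q \ T).card = 1 := by
    rw [card_sdiff_of_subset h]; omega
  obtain ⟨y, hy⟩ := card_eq_one.1 hrem
  have hym : y ∈ Q \ T := by rw [hy]; exact mem_singleton_self y
  rw [mem_sdiff] at hym
  refine ⟨y, hym.1, ?_⟩
  ext z
  rw [mem_erase]
  constructor
  · intro hz
    refine ⟨?_, h hz⟩
    rintro rfl
    exact hym.2 hz
  · rintro ⟨hzy, hz⟩
    by_contra hzT
    have : z ∈ Q \ T := mem_sdiff.2 ⟨hz, hzT⟩
    rw [hy] at this
    exact hzy (mem_singleton.1 this)

/-- The rectangle inequality for two disjoint sets. -/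
theorem rect_ineq2 {G : Finset (Finset V)} (hG : Covers G) (hG3 : ∀ T ∈ G, T.card = 3)
    {A B : Finset V} (hAB : Disjoint A B) :
    ∑ e ∈ A.powersetCard 2, (sO G B e).card.choose 2 +
      ∑ e' ∈ B.powersetCard 2, (sO G A e').card.choose 2 ≤
      A.card.choose 2 * B.card.choose 2 := by
  have hcount : ∀ (B e : Finset V), (sO G B e).card.choose 2 =
      ∑ e' ∈ B.powersetCard 2, if e' ⊆ sO G B e then 1 else 0 := by
    intro B e
    rw [← card_powersetCard, ← card_filter]
    congr 1
    ext e'
    simp only [mem_powersetCard, mem_filter]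
    constructor
    · rintro ⟨h1, h2⟩
      exact ⟨⟨h1.trans (filter_subset _ _), h2⟩, h1⟩
    · rintro ⟨⟨-, h2⟩, h1⟩
      exact ⟨h1, h2⟩
  calc ∑ e ∈ A.powersetCard 2, (sO G B e).card.choose 2 +
      ∑ e' ∈ B.powersetCard 2, (sO G A e').card.choose 2
      = ∑ e ∈ A.powersetCard 2, ∑ e' ∈ B.powersetCard 2,
          ((if e' ⊆ sO G B e then 1 else 0) + (if e ⊆ sO G A e' then 1 else 0)) := by
        rw [sum_congr rfl (fun e _ => hcount B e), sum_congr rfl (fun e' _ => hcount A e'),
          sum_comm (s := B.powersetCard 2), ← sum_add_distrib]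
        exact sum_congr rfl fun e _ => (sum_add_distrib).symm
    _ ≤ ∑ e ∈ A.powersetCard 2, ∑ e' ∈ B.powersetCard 2, 1 := by
        refine sum_le_sum fun e he => sum_le_sum fun e' he' => ?_
        by_cases k1 : e' ⊆ sO G B e
        · by_cases k2 : e ⊆ sO G A e'
          · exfalso
            rw [mem_powersetCard] at he he'
            have hdis : Disjoint e e' :=
              disjoint_of_subset_left he.1 (disjoint_of_subset_right he'.1 hAB)
            have hcard : (e ∪ e').card = 4 := by
              rw [card_union_of_disjoint hdis, he.2, he'.2]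
            obtain ⟨T, hT, hTQ⟩ := hG _ hcard
            obtain ⟨x, hxm, hTe⟩ := exists_erase hcard (hG3 T hT) hTQ
            rw [mem_union] at hxm
            rcases hxm with hxe | hxe'
            · have hy1 : (e.erase x).card = 1 := by
                rw [card_erase_of_mem hxe, he.2]
              obtain ⟨y, hy⟩ := card_eq_one.1 hy1
              have hye : y ∈ e.erase x := by rw [hy]; exact mem_singleton_self y
              rw [mem_erase] at hye
              have : T = insert y e' := by
                rw [hTe, erase_union_of_mem_left_aux hdis hxe, hy]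
                ext z; simp
              have h5 := (mem_filter.1 (k2 hye.2)).2
              exact h5 (this ▸ hT)
            · have hy1 : (e'.erase x).card = 1 := by
                rw [card_erase_of_mem hxe', he'.2]
              obtain ⟨y, hy⟩ := card_eq_one.1 hy1
              have hye : y ∈ e'.erase x := by rw [hy]; exact mem_singleton_self y
              rw [mem_erase] at hye
              have : T = insert y e := by
                rw [hTe, union_comm, erase_union_of_mem_left_aux hdis.symm hxe', hy]
                ext z; simp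
              have h5 := (mem_filter.1 (k1 hye.2)).2
              exact h5 (this ▸ hT)
          · rw [if_pos k1, if_neg k2]
        · rw [if_neg k1]
          split_ifs <;> omega
    _ = A.card.choose 2 * B.card.choose 2 := by
        simp [card_powersetCard]

theorem sum_pairs_le (A : Finset V) (w : V → ℕ) :
    ∑ e ∈ A.powersetCard 2, ∑ x ∈ e, w x ≤ (A.card - 1) * ∑ x ∈ A, w x := by
  have h1 : ∀ e ∈ A.powersetCard 2, ∑ x ∈ e, w x = ∑ x ∈ A, if x ∈ e then w x else 0 := by
    intro e he
    rw [mem_powersetCard] at he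
    rw [← sum_filter]
    refine sum_congr ?_ fun _ _ => rfl
    ext x
    rw [mem_filter]
    exact ⟨fun h => ⟨he.1 h, h⟩, fun h => h.2⟩
  rw [sum_congr rfl h1, sum_comm, mul_sum]
  refine sum_le_sum fun x hx => ?_
  rw [← sum_filter, sum_const, smul_eq_mul]
  refine Nat.mul_le_mul_right _ ?_
  have h2 : (A.powersetCard 2).filter (fun e => x ∈ e) ⊆
      (A.erase x).image fun y => ({x, y} : Finset V) := by
    intro e he
    rw [mem_filter, mem_powersetCard] at he
    obtain ⟨⟨heA, he2⟩, hxe⟩ := he
    have h3 : (e.erase x).card = 1 := by rw [card_erase_of_mem hxe, he2]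
    obtain ⟨y, hy⟩ := card_eq_one.1 h3
    have hye : y ∈ e.erase x := by rw [hy]; exact mem_singleton_self y
    rw [mem_erase] at hye
    rw [mem_image]
    refine ⟨y, mem_erase.2 ⟨hye.1, heA hye.2⟩, ?_⟩
    rw [← insert_erase hxe, hy]
  refine (card_le_card h2).trans (card_image_le.trans ?_)
  rw [card_erase_of_mem hx]

/-- The mixed inequality. -/
theorem mixed {G : Finset (Finset V)} (hG : Covers G) (hG3 : ∀ T ∈ G, T.card = 3)
    {A B C : Finset V} (hAB : Disjoint A B) (hAC : Disjoint A C) (hBC : Disjoint B C) :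
    ∑ e ∈ A.powersetCard 2, (sO G B e).card * (sO G C e).card ≤
      (A.card - 1) *
        ∑ x ∈ A, ((B ×ˢ C).filter fun p => ({x, p.1, p.2} : Finset V) ∈ G).card := by
  refine le_trans (sum_le_sum fun e he => ?_) (sum_pairs_le A _)
  rw [← card_product]
  refine le_trans (card_le_card ?_) card_biUnion_le
  rintro ⟨b, c⟩ hp
  rw [mem_product] at hp
  simp only [sO, mem_filter] at hp
  obtain ⟨⟨hb, hb'⟩, hc, hc'⟩ := hp
  rw [mem_powersetCard] at he
  obtain ⟨x, x', hxx', rfl⟩ := card_eq_two.1 he.2
  have hxA : x ∈ A := he.1 (by simp)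
  have hxA' : x' ∈ A := he.1 (by simp)
  have n1 : b ≠ c := fun h => disjoint_left.1 hBC hb (h ▸ hc)
  have n2 : b ≠ x := fun h => disjoint_left.1 hAB hxA (h ▸ hb)
  have n3 : b ≠ x' := fun h => disjoint_left.1 hAB hxA' (h ▸ hb)
  have n4 : c ≠ x := fun h => disjoint_left.1 hAC hxA (h ▸ hc)
  have n5 : c ≠ x' := fun h => disjoint_left.1 hAC hxA' (h ▸ hc)
  have hQ : ({b, c, x, x'} : Finset V).card = 4 := by
    rw [card_insert_of_notMem, card_insert_of_notMem, card_pair hxx']
    · simp [n4, n5]
    · simp [n1, n2, n3]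
  obtain ⟨T, hT, hTQ⟩ := hG _ hQ
  obtain ⟨y, hy, hTe⟩ := exists_erase hQ (hG3 T hT) hTQ
  rw [mem_biUnion]
  simp only [mem_insert, mem_singleton] at hy
  rcases hy with rfl | rfl | rfl | rfl
  · exfalso
    apply hc'
    have : T = insert c {x, x'} := by
      rw [hTe]; ext z; simp only [mem_erase, mem_insert, mem_singleton]
      constructor
      · rintro ⟨h1, h2 | h2 | h2 | h2⟩
        · exact absurd h2 h1
        · exact Or.inl h2
        · exact Or.inr (Or.inl h2)
        · exact Or.inr (Or.inr h2)
      · rintro (h2 | h2 | h2)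
        · subst h2; exact ⟨n1.symm, Or.inr (Or.inl rfl)⟩
        · subst h2; exact ⟨n2.symm, Or.inr (Or.inr (Or.inl rfl))⟩
        · subst h2; exact ⟨n3.symm, Or.inr (Or.inr (Or.inr rfl))⟩
    rw [← this]; exact hT
  · exfalso
    apply hb'
    have : T = insert b {x, x'} := by
      rw [hTe]; ext z; simp only [mem_erase, mem_insert, mem_singleton]
      constructor
      · rintro ⟨h1, h2 | h2 | h2 | h2⟩
        · exact Or.inl h2
        · exact absurd h2 h1
        · exact Or.inr (Or.inl h2)
        · exact Or.inr (Or.inr h2)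
      · rintro (h2 | h2 | h2)
        · subst h2; exact ⟨n1, Or.inl rfl⟩
        · subst h2; exact ⟨n4.symm, Or.inr (Or.inr (Or.inl rfl))⟩
        · subst h2; exact ⟨n5.symm, Or.inr (Or.inr (Or.inr rfl))⟩
    rw [← this]; exact hT
  · refine ⟨x', by simp, ?_⟩
    rw [mem_filter, mem_product]
    refine ⟨⟨hb, hc⟩, ?_⟩
    have : T = {x', b, c} := by
      rw [hTe]; ext z; simp only [mem_erase, mem_insert, mem_singleton]
      constructor
      · rintro ⟨h1, h2 | h2 | h2 | h2⟩
        · exact Or.inr (Or.inl h2)
        · exact Or.inr (Or.inr h2)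
        · exact absurd h2 h1
        · exact Or.inl h2
      · rintro (h2 | h2 | h2)
        · subst h2; exact ⟨hxx'.symm, Or.inr (Or.inr (Or.inr rfl))⟩
        · subst h2; exact ⟨n2, Or.inl rfl⟩
        · subst h2; exact ⟨n4, Or.inr (Or.inl rfl)⟩
    rw [← this]; exact hT
  · refine ⟨x, by simp, ?_⟩
    rw [mem_filter, mem_product]
    refine ⟨⟨hb, hc⟩, ?_⟩
    have : T = {x, b, c} := by
      rw [hTe]; ext z; simp only [mem_erase, mem_insert, mem_singleton]
      constructor
      · rintro ⟨h1, h2 | h2 | h2 | h2⟩
        · exact Or.inr (Or.inl h2)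
        · exact Or.inr (Or.inr h2)
        · exact Or.inl h2
        · exact absurd h2 h1
      · rintro (h2 | h2 | h2)
        · subst h2; exact ⟨hxx', Or.inr (Or.inr (Or.inl rfl))⟩
        · subst h2; exact ⟨n3, Or.inl rfl⟩
        · subst h2; exact ⟨n5, Or.inr (Or.inl rfl)⟩
    rw [← this]; exact hT

theorem choose_add_two (x y : ℕ) : (x + y).choose 2 = x.choose 2 + y.choose 2 + x * y := by
  have h := two_choose_two (x + y)
  have h1 := two_choose_two x
  have h2 := two_choose_two y
  have h3 : ((x + y).choose 2 : ℝ) = x.choose 2 + y.choose 2 + x * y := by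
    push_cast at h
    linarith [mul_comm (x : ℝ) y]
  exact_mod_cast h3

/-- One class. -/
theorem class_le {G : Finset (Finset V)} {A B C : Finset V} (hBC : Disjoint B C)
    (hc : Aᶜ = B ∪ C) (q : ℕ) :
    q * (two G A).card ≤ ∑ e ∈ A.powersetCard 2, (sO G B e).card.choose 2 +
      ∑ e ∈ A.powersetCard 2, (sO G C e).card.choose 2 +
      ∑ e ∈ A.powersetCard 2, (sO G B e).card * (sO G C e).card +
      A.card.choose 2 * (q + 1).choose 2 := by
  have h1 : ∀ e, (sOut G A e).card = (sO G B e).card + (sO G C e).card := by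
    intro e
    have : sOut G A e = sO G B e ∪ sO G C e := by
      rw [sOut, hc, filter_union]; rfl
    rw [this, card_union_of_disjoint]
    exact disjoint_of_subset_left (filter_subset _ _)
      (disjoint_of_subset_right (filter_subset _ _) hBC)
  have h2 : A.card.choose 2 * (q + 1).choose 2 = ∑ e ∈ A.powersetCard 2, (q + 1).choose 2 := by
    simp [card_powersetCard]
  rw [h2, ← sum_add_distrib, ← sum_add_distrib, ← sum_add_distrib]
  refine (Nat.mul_le_mul_left q (card_two_le G A)).trans ?_
  rw [mul_sum]
  refine sum_le_sum fun e _ => ?_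
  have h3 := tangent q (sOut G A e).card
  rw [h1 e, choose_add_two] at h3
  rw [h1 e]
  exact h3

end Pool.Agent.H53.TC
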